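import Pool.Agent.Lib_helper84.TU.Defs
import Pool.Agent.Lib_helper31.LGF.GA
import Pool.Agent.Lib_helper41.LVBF.WTT

/-! T12 III, block VB: bounds of the weights -/

set_option autoImplicit false

namespace Pool.Agent.TU

open Pool.Agent.LEV Pool.Agent.LVB
open Pool.Agent.LK (PQ V)
open Complex MeasureTheory Filter Topology ProbabilityTheory

theorem vb_cont (i : ℕ) : ContinuousOn (V i) (Set.Ioi 0) := by
  obtain ⟨C, hC, -, -, h3⟩ := Pool.Agent.LG.v_facts_pr i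
  intro y hy
  have hy0 : 0 < y := hy
  obtain ⟨m, hm⟩ : ∃ m, m = min 1 (y / 2) := ⟨_, rfl⟩
  have hm0 : 0 < m := by rw [hm]; exact lt_min one_pos (by linarith)
  have hL : LipschitzOnWith (Real.toNNReal (C / m ^ 2)) (V i) (Set.Ici m) := by
    refine LipschitzOnWith.of_dist_le_mul (fun a ha b hb => ?_)
    rw [Real.dist_eq, Real.dist_eq, Real.coe_toNNReal _ (by positivity)]
    exact h3 m a b hm0 (by rw [hm]; exact min_le_left _ _) ha hb
  have h1 := hL.continuousOn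
  have h2 : Set.Ici m ∈ nhds y := Ici_mem_nhds (by
    have := min_le_right 1 (y / 2)
    rw [← hm] at this
    linarith)
  exact (h1.continuousAt h2).continuousWithinAt

theorem vb_comp {m n : ℕ} (hm : 3 ≤ m) (hn : 1 ≤ n) (i : ℕ) :
    Continuous (fun v : ℝ => V i (n * (m : ℝ) ^ (-v))) := by
  have hm' : (m : ℝ) ≠ 0 := by exact_mod_cast (by omega : m ≠ 0)
  have hm0 : (0 : ℝ) < m := by exact_mod_cast (by omega : 0 < m)
  have hn0 : (0 : ℝ) < n := by exact_mod_cast hn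
  have h : Continuous (fun v : ℝ => (m : ℝ) ^ (-v)) :=
    continuous_const.rpow continuous_neg (fun v => Or.inl hm')
  refine (vb_cont i).comp_continuous (continuous_const.mul h) (fun v => ?_)
  show 0 < (n : ℝ) * (m : ℝ) ^ (-v)
  positivity

theorem vb_int {m n : ℕ} (hm : 3 ≤ m) (hn : 1 ≤ n) (i : ℕ) :
    Integrable (fun v : ℝ => mv v * V i (n * (m : ℝ) ^ (-v))) :=
  WTT_integrable (vb_comp hm hn i)

theorem vb_upper {m n : ℕ} (hm : 3 ≤ m) (hn : 1 ≤ n) (i : ℕ) {c : ℝ}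
    (h : ∀ v : ℝ, 9 / 20 < v → v < 11 / 20 → V i (n * (m : ℝ) ^ (-v)) ≤ c) :
    wi i m n ≤ c := by
  have h1 : wi i m n ≤ ∫ v : ℝ, mv v * c := by
    unfold wi
    refine integral_mono (vb_int hm hn i) (WTT_integrable continuous_const) fun v => ?_
    by_cases hv : mv v = 0
    · simp [hv]
    · exact mul_le_mul_of_nonneg_left (h v (WTT_supp hv).1 (WTT_supp hv).2) (WTT_nonneg v)
  rw [integral_mul_const, WTT_int, one_mul] at h1
  exact h1

theorem wi_bounds (i : ℕ) : ∃ C : ℝ, 1 ≤ C ∧ ∀ m n : ℕ, 3 ≤ m → 1 ≤ n →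
    0 ≤ wi i m n ∧ wi i m n ≤ C * (1 + Real.log m + Real.log n) ^ i ∧
    ((m : ℝ) ^ (11 / 20 : ℝ) ≤ n →
      wi i m n ≤ Real.exp (-2 * Real.pi * n * (m : ℝ) ^ (-(11 / 20) : ℝ))) := by
  obtain ⟨C, hC, h1, h2, -⟩ := Pool.Agent.LG.v_facts_pr i
  refine ⟨C, hC, fun m n hm hn => ?_⟩
  have hm0 : (0 : ℝ) < m := by exact_mod_cast (by omega : 0 < m)
  have hm1 : (1 : ℝ) ≤ m := by exact_mod_cast (by omega : 1 ≤ m)
  have hn0 : (0 : ℝ) < n := by exact_mod_cast hn
  have hn1 : (1 : ℝ) ≤ n := by exact_mod_cast hn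
  have hlm : 0 ≤ Real.log m := Real.log_nonneg hm1
  have hln : 0 ≤ Real.log n := Real.log_nonneg hn1
  have hy : ∀ v : ℝ, 0 < (n : ℝ) * (m : ℝ) ^ (-v) := fun v => by positivity
  refine ⟨?_, ?_, ?_⟩
  · unfold wi
    exact integral_nonneg fun v => mul_nonneg (WTT_nonneg v) (h1 _ (hy v)).1
  · refine vb_upper hm hn i fun v hv1 hv2 => ?_
    refine (h1 _ (hy v)).2.trans ?_
    have e1 : Real.log ((n : ℝ) * (m : ℝ) ^ (-v)) = Real.log n - v * Real.log m := by
      rw [Real.log_mul hn0.ne' (by positivity), Real.log_rpow hm0]; ring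
    have e2 : |Real.log ((n : ℝ) * (m : ℝ) ^ (-v))| ≤ Real.log m + Real.log n := by
      rw [e1, abs_le]
      constructor <;> nlinarith
    have e3 : Real.exp (-((n : ℝ) * (m : ℝ) ^ (-v))) ≤ 1 := by
      rw [Real.exp_le_one_iff]; linarith [hy v]
    have e4 : (1 + |Real.log ((n : ℝ) * (m : ℝ) ^ (-v))|) ^ i ≤
        (1 + Real.log m + Real.log n) ^ i := pow_le_pow_left₀ (by positivity) (by linarith) i
    calc C * (1 + |Real.log ((n : ℝ) * (m : ℝ) ^ (-v))|) ^ i * Real.exp (-((n : ℝ) * (m : ℝ) ^ (-v)))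
        ≤ C * (1 + Real.log m + Real.log n) ^ i * 1 := by
          refine mul_le_mul (mul_le_mul_of_nonneg_left e4 (by linarith)) e3 (Real.exp_pos _).le ?_
          positivity
      _ = _ := mul_one _
  · intro hmn
    refine vb_upper hm hn i fun v hv1 hv2 => ?_
    have e1 : (m : ℝ) ^ (-(11 / 20) : ℝ) ≤ (m : ℝ) ^ (-v) :=
      Real.rpow_le_rpow_of_exponent_le hm1 (by linarith)
    have e2 : 1 ≤ (n : ℝ) * (m : ℝ) ^ (-v) := by
      calc (1 : ℝ) = (m : ℝ) ^ (11 / 20 : ℝ) * (m : ℝ) ^ (-(11 / 20) : ℝ) := by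
            rw [← Real.rpow_add hm0]; norm_num
        _ ≤ (n : ℝ) * (m : ℝ) ^ (-v) := mul_le_mul hmn e1 (by positivity) hn0.le
    refine (h2 _ e2).trans ?_
    rw [Real.exp_le_exp]
    have hpi := Real.pi_pos
    have e3 : 2 * Real.pi * (n * (m : ℝ) ^ (-(11 / 20) : ℝ)) ≤
        2 * Real.pi * (n * (m : ℝ) ^ (-v)) :=
      mul_le_mul_of_nonneg_left (mul_le_mul_of_nonneg_left e1 hn0.le) (by positivity)
    linarith

end Pool.Agent.TU
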