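import Pool.Agent.Lib_helper41.LVB.Defs
import Pool.Agent.Lib_helper53.LE.Defs
import Pool.Agent.Lib_helper71.LSP3.AS1

/-!
# T12, part III: upper bounds for the smooth twists. Definitions.

`χ` is a primitive quadratic character mod `q`, `N` the level, `m = N q²`. The `i`-th smooth twist is
`∑ χ(n) λ(n) / √n V_i(n / (q √N))`. By the functional equation it is (for `χ(-N) = 1`, `i = 0, 2`, and
for `χ(-N) = -1`, `i = 1`) a combination of the sums with the weights `wi`, whose Mellin transforms live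
at the scale `1 / log N`.
-/

set_option autoImplicit false

namespace Pool.Agent.TU

open Pool.Agent.LEV Pool.Agent.LVB
open Pool.Agent.LK (PQ V)
open Pool.Agent.LE (xv)
open Pool.Agent.LX (Yy Aa nu dl)
open Pool.Agent.LSP (MX)
open Complex MeasureTheory Filter Topology ProbabilityTheory

/-- the conductor of the twist -/
def mN (q N : ℕ) : ℕ := N * q ^ 2

/-- the primes below `N` which do not divide `q` -/
def Qp (q N : ℕ) : Finset ℕ := (Pr N).filter (fun p => ¬ p ∣ q)

/-- the mollifying primes -/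
noncomputable def Iq (q N : ℕ) : Finset ℕ := (IN N).filter (fun p => ¬ p ∣ q)

/-- the weight in the approximate functional equation -/
noncomputable def wi (i m n : ℕ) : ℝ := ∫ v : ℝ, mv v * V i (n * (m : ℝ) ^ (-v))

/-- the density in its Fourier representation -/
noncomputable def Ai (i m : ℕ) (T : ℝ) : ℂ := AT m T / sT m T ^ i

/-- the random Euler product over the primes in `Q` -/
noncomputable def LQ (Q : Finset ℕ) (m : ℕ) (T : ℝ) (x : ℕ → ℝ) : ℂ :=
  ∏ p ∈ Q, el p ((p : ℂ) ^ (-(sT m T))) (x p)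

open Classical in
/-- the model -/
noncomputable def Sp (i : ℕ) (Q : Finset ℕ) (m : ℕ) (x : ℕ → ℝ) : ℝ :=
  ∑' n : ℕ, if n ≠ 0 ∧ n.primeFactors ⊆ Q then wi i m n / Real.sqrt n * Um n x else 0

/-- the truncated model -/
noncomputable def Sq (i : ℕ) (Q : Finset ℕ) (m : ℕ) (x : ℕ → ℝ) : ℝ :=
  ∑ n ∈ (Finset.Icc 1 (X0 m)).filter (fun n => n.primeFactors ⊆ Q), wi i m n / Real.sqrt n * Um n x

/-- the degree of the mollifier -/
noncomputable def Kd (A₁ N : ℕ) : ℕ := A₁ * ⌈Real.log (Real.log N)⌉₊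

variable {q : ℕ} [NeZero q]

/-- the twisted values at the primes -/
noncomputable def tx (χ : DirichletCharacter ℂ q) (x : ℕ → ℝ) (p : ℕ) : ℝ := (χ p).re * x p

/-- the sum over the primes -/
noncomputable def PX (χ : DirichletCharacter ℂ q) {N : ℕ} (f : S2 N) : ℝ :=
  ∑ p ∈ IN N, (χ p).re * la f p / Real.sqrt p

/-- the `i`-th smooth twist, truncated -/
noncomputable def ui (χ : DirichletCharacter ℂ q) (i : ℕ) {N : ℕ} (f : S2 N) : ℝ :=
  MX (Aa q N) (xv χ i (Yy q N) (Aa q N)) (la f)

/-- the terms of the twist at the centre -/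
noncomputable def an (χ : DirichletCharacter ℂ q) {N : ℕ} (f : S2 N) (n : ℕ) : ℝ :=
  (χ n).re * (la f n / Real.sqrt n)

/-- the signs for which the twist is determined by the symmetric weights -/
def Sgn (χ : DirichletCharacter ℂ q) (N i : ℕ) : Prop :=
  (χ (-(N : ZMod q)) = 1 ∧ (i = 0 ∨ i = 2)) ∨ (χ (-(N : ZMod q)) = -1 ∧ i = 1)

end Pool.Agent.TU
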