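import Pool.Agent.Lib_helper84.TU.VB
import Pool.Agent.Lib_helper31.LKF.KP2
import Pool.Agent.Lib_helper41.LVBF.WTF

/-! T12 III, block FA: Fourier representation of the weights -/

set_option autoImplicit false

namespace Pool.Agent.TU

open Pool.Agent.LEV Pool.Agent.LVB
open Pool.Agent.LK (PQ V MW)
open Complex MeasureTheory Filter Topology ProbabilityTheory

theorem fa_re {m : ℕ} (T : ℝ) : (sT m T).re = (Real.log m)⁻¹ := by
  rw [WTF_sT, Complex.add_re, Complex.ofReal_re, Complex.re_ofReal_mul, Complex.I_re, mul_zero,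
    add_zero]

theorem fa_im {m : ℕ} (T : ℝ) : (sT m T).im = T / Real.log m := by
  rw [WTF_sT, Complex.add_im, Complex.ofReal_im, Complex.im_ofReal_mul, Complex.I_im, mul_one,
    zero_add]

theorem fa_W {w : ℝ → ℝ} {W : ℂ → ℂ} (hw : MW w W) {m : ℕ} (hm : 3 ≤ m) :
    Continuous (fun T : ℝ => W (sT m T)) ∧ Integrable (fun T : ℝ => W (sT m T)) := by
  have hl := WTF_log hm
  have hσ : 0 < (Real.log m)⁻¹ := inv_pos.2 hl
  have hc : Continuous (fun T : ℝ => W (sT m T)) := by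
    refine continuous_iff_continuousAt.2 fun T => ?_
    have h1 : ContinuousAt W (sT m T) := (hw.diff _ (by rw [fa_re]; exact hσ)).continuousAt
    exact ContinuousAt.comp (f := fun T : ℝ => sT m T) h1 (WTF_sTc m).continuousAt
  refine ⟨hc, ?_⟩
  obtain ⟨C, hC⟩ := hw.bdd (Real.log m)⁻¹ (Real.log m)⁻¹ hσ
  have h2 : Integrable (fun u : ℝ => Real.exp (-|u|)) := Pool.Agent.LK.kp0_exp
  have h3 := (h2.comp_div hl.ne').const_mul C
  refine h3.mono' hc.aestronglyMeasurable (Eventually.of_forall fun T => ?_)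
  have := hC (sT m T) (by rw [fa_re]) (by rw [fa_re])
  rw [fa_im] at this
  exact this

theorem fa_main {w : ℝ → ℝ} {W : ℂ → ℂ} (hw : MW w W) {m n : ℕ} (hm : 3 ≤ m) (hn : 1 ≤ n) :
    ((∫ v : ℝ, mv v * w (n * (m : ℝ) ^ (-v)) : ℝ) : ℂ) =
      ∫ T : ℝ, 1 / (2 * Real.pi) * (W (sT m T) / (Real.log m : ℂ)) * (n : ℂ) ^ (-(sT m T)) *
        ∫ v : ℝ, (mv v : ℂ) * Complex.exp ((v : ℂ) * (1 + (T : ℂ) * Complex.I)) := by
  have hl := WTF_log hm
  have hlc : (Real.log m : ℂ) ≠ 0 := Complex.ofReal_ne_zero.2 hl.ne'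
  have hσ : 0 < (Real.log m)⁻¹ := inv_pos.2 hl
  have hNR : (0 : ℝ) < m := by
    have : (3 : ℝ) ≤ m := by exact_mod_cast hm
    linarith
  have hnR : (0 : ℝ) < n := by exact_mod_cast hn
  have hnc : (n : ℂ) ≠ 0 := by exact_mod_cast (by omega : n ≠ 0)
  set G : ℝ → ℂ := fun T => 1 / (2 * Real.pi) * (W (sT m T) / (Real.log m : ℂ)) *
    (n : ℂ) ^ (-(sT m T)) with hG
  have hexp : ∀ v : ℝ, ((w (n * (m : ℝ) ^ (-v)) : ℝ) : ℂ) =
      ∫ T : ℝ, G T * Complex.exp ((v : ℂ) * (1 + (T : ℂ) * Complex.I)) := by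
    intro v
    set y : ℝ := n * (m : ℝ) ^ (-v) with hy
    have hy0 : 0 < y := by positivity
    have hlogy : Real.log y = Real.log n - v * Real.log m := by
      rw [hy, Real.log_mul hnR.ne' (by positivity), Real.log_rpow hNR]
      ring
    rw [hw.inv _ hσ y hy0]
    have e1 : ∫ t : ℝ, W ((((Real.log m)⁻¹ : ℝ) : ℂ) + t * Complex.I) *
        (y : ℂ) ^ (-((((Real.log m)⁻¹ : ℝ) : ℂ) + t * Complex.I)) =
        (Real.log m : ℂ)⁻¹ * ∫ T : ℝ, W (sT m T) * (y : ℂ) ^ (-(sT m T)) := by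
      have h1 := Measure.integral_comp_div (fun t : ℝ =>
        W ((((Real.log m)⁻¹ : ℝ) : ℂ) + t * Complex.I) *
          (y : ℂ) ^ (-((((Real.log m)⁻¹ : ℝ) : ℂ) + t * Complex.I))) (Real.log m)
      rw [abs_of_pos hl, Complex.real_smul] at h1
      have h2 : ∀ T : ℝ, (fun t : ℝ => W ((((Real.log m)⁻¹ : ℝ) : ℂ) + t * Complex.I) *
          (y : ℂ) ^ (-((((Real.log m)⁻¹ : ℝ) : ℂ) + t * Complex.I))) (T / Real.log m) =
          W (sT m T) * (y : ℂ) ^ (-(sT m T)) := by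
        intro T
        rw [WTF_sT]
      simp_rw [h2] at h1
      rw [h1, ← mul_assoc, inv_mul_cancel₀ hlc, one_mul]
    rw [e1, ← mul_assoc, ← integral_const_mul]
    congr 1
    ext T
    have e2 : (y : ℂ) ^ (-(sT m T)) = (n : ℂ) ^ (-(sT m T)) *
        Complex.exp ((v : ℂ) * (1 + (T : ℂ) * Complex.I)) := by
      rw [Complex.cpow_def_of_ne_zero (Complex.ofReal_ne_zero.2 hy0.ne'),
        Complex.cpow_def_of_ne_zero hnc,
        ← Complex.ofReal_log hy0.le,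
        Complex.natCast_log.symm, ← Complex.exp_add, hlogy]
      congr 1
      have e3 : sT m T * (Real.log m : ℂ) = 1 + (T : ℂ) * Complex.I := by
        rw [sT, div_mul_cancel₀ _ hlc]
      rw [← e3]
      push_cast
      ring
    rw [e2, hG]
    field_simp
  have hGc : Continuous G := by
    rw [hG]
    exact (continuous_const.mul ((fa_W hw hm).1.div_const _)).mul (WTF_cpow hnc m)
  have hGi : Integrable G := by
    have h1 : Integrable (fun T : ℝ => (‖(1 : ℂ) / (2 * Real.pi)‖ * ‖(Real.log m : ℂ)‖⁻¹ *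
        (n : ℝ) ^ (-(Real.log m)⁻¹)) * ‖W (sT m T)‖) := (fa_W hw hm).2.norm.const_mul _
    refine h1.mono' hGc.aestronglyMeasurable (Eventually.of_forall fun T => le_of_eq ?_)
    have hre : (-(sT m T)).re = -(Real.log m)⁻¹ := by
      rw [Complex.neg_re, fa_re]
    have n2 : ‖(n : ℂ) ^ (-(sT m T))‖ = (n : ℝ) ^ (-(Real.log m)⁻¹) := by
      rw [← Complex.ofReal_natCast, Complex.norm_cpow_eq_rpow_re_of_pos hnR, hre]
    simp only [hG]
    rw [norm_mul, norm_mul, norm_div (W _) _, n2]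
    ring
  have hfub : Integrable (Function.uncurry fun (v T : ℝ) =>
      (mv v : ℂ) * (G T * Complex.exp ((v : ℂ) * (1 + (T : ℂ) * Complex.I)))) (volume.prod volume) := by
    have h1 := WTF_mvi.mul_prod hGi
    have h2 : (Function.uncurry fun (v T : ℝ) =>
        (mv v : ℂ) * (G T * Complex.exp ((v : ℂ) * (1 + (T : ℂ) * Complex.I)))) =
        fun p : ℝ × ℝ => ((mv p.1 : ℂ) * ((Real.exp p.1 : ℝ) : ℂ) * G p.2) *
          Complex.exp (((p.1 * p.2 : ℝ) : ℂ) * Complex.I) := by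
      ext p
      simp only [Function.uncurry]
      rw [WTF_e]
      ring
    rw [h2]
    refine h1.mul_bdd (c := 1) ?_ (Eventually.of_forall fun p => ?_)
    · exact (by fun_prop : Continuous fun p : ℝ × ℝ =>
        Complex.exp (((p.1 * p.2 : ℝ) : ℂ) * Complex.I)).aestronglyMeasurable
    · rw [Complex.norm_exp_ofReal_mul_I]
  have e5 : ((∫ v : ℝ, mv v * w (n * (m : ℝ) ^ (-v)) : ℝ) : ℂ) = ∫ v : ℝ, ∫ T : ℝ,
      (mv v : ℂ) * (G T * Complex.exp ((v : ℂ) * (1 + (T : ℂ) * Complex.I))) := by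
    rw [← integral_complex_ofReal]
    congr 1
    ext v
    rw [integral_const_mul, ← hexp v]
    push_cast
    rfl
  rw [e5, integral_integral_swap hfub]
  congr 1
  ext T
  have e6 : (fun v : ℝ => (mv v : ℂ) * (G T * Complex.exp ((v : ℂ) * (1 + (T : ℂ) * Complex.I)))) =
      fun v : ℝ => G T * ((mv v : ℂ) * Complex.exp ((v : ℂ) * (1 + (T : ℂ) * Complex.I))) := by
    ext v
    ring
  rw [e6, integral_const_mul, hG]

theorem wi_fourier (i : ℕ) {m n : ℕ} (hm : 3 ≤ m) (hn : 1 ≤ n) :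
    (wi i m n : ℂ) = ∫ T : ℝ, Ai i m T * (n : ℂ) ^ (-(sT m T)) := by
  have h := fa_main (Pool.Agent.LK.mw_V_pr i) hm hn
  unfold wi
  rw [h]
  congr 1
  ext T
  unfold Ai AT
  ring

theorem fa_norm {m : ℕ} (_hm : 3 ≤ m) (T : ℝ) : (Real.log m)⁻¹ ≤ ‖sT m T‖ := by
  rw [← fa_re T]
  exact (le_abs_self _).trans (Complex.abs_re_le_norm _)

theorem fa_inv {m : ℕ} (hm : 3 ≤ m) (i : ℕ) (T : ℝ) : ‖(sT m T ^ i)⁻¹‖ ≤ Real.log m ^ i := by
  have hl := WTF_log hm
  rw [norm_inv, norm_pow, ← inv_pow]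
  refine pow_le_pow_left₀ (by positivity) ?_ i
  have := fa_norm hm T
  rw [← inv_inv (Real.log m)]
  exact inv_anti₀ (by positivity) this

theorem ai_decay (i k : ℕ) : ∃ C : ℝ, 0 ≤ C ∧ ∀ m : ℕ, 3 ≤ m → ∀ T : ℝ,
    ‖Ai i m T‖ ≤ C * Real.log m ^ i * ((1 + |T|) ^ k)⁻¹ := by
  obtain ⟨C, hC⟩ := at_decay k
  have hdec : ∀ m : ℕ, 3 ≤ m → ∀ T : ℝ, ‖AT m T‖ ≤ C * ((1 + |T|) ^ k)⁻¹ := by
    intro m hm T
    have := hC m hm T
    rwa [zpow_neg, zpow_natCast] at this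
  have hC0 : 0 ≤ C := by
    have := (norm_nonneg _).trans (hdec 3 le_rfl 0)
    simpa using this
  refine ⟨C, hC0, fun m hm T => ?_⟩
  have hl := WTF_log hm
  unfold Ai
  rw [div_eq_mul_inv, norm_mul]
  calc ‖AT m T‖ * ‖(sT m T ^ i)⁻¹‖ ≤ C * ((1 + |T|) ^ k)⁻¹ * Real.log m ^ i :=
        mul_le_mul (hdec m hm T) (fa_inv hm i T) (norm_nonneg _) (by positivity)
    _ = _ := by ring

theorem ai_cont (i : ℕ) {m : ℕ} (hm : 3 ≤ m) : Continuous (Ai i m) := by
  unfold Ai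
  refine (WTF_ATc hm).div ((WTF_sTc m).pow i) fun T => ?_
  have hl := WTF_log hm
  have := fa_norm hm T
  have h0 : 0 < ‖sT m T‖ := lt_of_lt_of_le (by positivity) this
  exact pow_ne_zero _ (norm_pos_iff.1 h0)

theorem ai_int (i : ℕ) {m : ℕ} (hm : 3 ≤ m) : Integrable (Ai i m) := by
  obtain ⟨C, hC0, hC⟩ := ai_decay i 2
  refine Integrable.mono' (integrable_inv_one_add_sq.const_mul (C * Real.log m ^ i))
    (ai_cont i hm).aestronglyMeasurable (Eventually.of_forall fun T => ?_)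
  have hl := WTF_log hm
  refine (hC m hm T).trans (mul_le_mul_of_nonneg_left (inv_anti₀ (by positivity) ?_)
    (by positivity))
  have h5 : T ^ 2 = |T| ^ 2 := (sq_abs T).symm
  rw [h5]
  nlinarith [abs_nonneg T]

end Pool.Agent.TU
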