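import Pool.Agent.Lib_helper84.TU.FA
import Pool.Agent.Lib_helper41.LVBF.FOU
import Pool.Agent.Lib_helper41.LVBF.TRN

/-! T12 III, block FB: the model as an integral of Euler products; truncation -/

set_option autoImplicit false

namespace Pool.Agent.TU

open Pool.Agent.LEV Pool.Agent.LVB
open Pool.Agent.LK (PQ V MW)
open Complex MeasureTheory Filter Topology ProbabilityTheory

/-- the value `0` outside of `Q` -/
noncomputable def fbx (Q : Finset ℕ) (x : ℕ → ℝ) : ℕ → ℝ := fun p => if p ∈ Q then x p else 0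

theorem fbx_le {Q : Finset ℕ} {x : ℕ → ℝ} (hx : ∀ p ∈ Q, |x p| ≤ 2) (p : ℕ) :
    |fbx Q x p| ≤ 2 := by
  unfold fbx
  split_ifs with h
  · exact hx p h
  · simp

theorem fbx_um {Q : Finset ℕ} (x : ℕ → ℝ) {n : ℕ} (hn : n.primeFactors ⊆ Q) :
    Um n (fbx Q x) = Um n x := by
  unfold Um
  refine Finset.prod_congr rfl fun p hp => ?_
  unfold fbx
  rw [if_pos (hn hp)]

theorem fbx_lq {Q : Finset ℕ} (m : ℕ) (T : ℝ) (x : ℕ → ℝ) :
    LQ Q m T (fbx Q x) = LQ Q m T x := by
  unfold LQ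
  refine Finset.prod_congr rfl fun p hp => ?_
  unfold fbx
  rw [if_pos hp]

theorem fb_hasSum {Q : Finset ℕ} (hQ : ∀ p ∈ Q, p.Prime) {m : ℕ} (hm : 3 ≤ m) {x : ℕ → ℝ}
    (hx : ∀ p, |x p| ≤ 2) (T : ℝ) :
    HasSum (fun n : Nat.factoredNumbers Q => FOU_f m x T n) (LQ Q m T x) := by
  have h := (EulerProduct.summable_and_hasSum_factoredNumbers_prod_filter_prime_tsum
    (FOU_f_one m x T) (fun {a b} h => FOU_f_mul m x T h) (fun {p} hp => by
      refine Summable.of_nonneg_of_le (fun n => norm_nonneg _) (fun n => ?_) (FOU_g_sum hx hp)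
      rw [Real.norm_eq_abs, abs_of_nonneg (FOU_g_nonneg x _)]
      exact FOU_f_le hm x T (pow_pos hp.pos n)) Q).2
  have h1 : ∏ p ∈ Q with p.Prime, ∑' n : ℕ, FOU_f m x T (p ^ n) = LQ Q m T x := by
    have h2 : Q.filter (fun p => p.Prime) = Q := Finset.filter_true_of_mem fun p hp => hQ p hp
    rw [h2, LQ]
    refine Finset.prod_congr rfl fun p hp => ?_
    have hpp : p.Prime := hQ p hp
    have h3 := el_sum hpp (FOU_ps hm T hpp.pos) (hx p)
    rw [← h3.tsum_eq]
    refine tsum_congr fun n => ?_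
    exact FOU_f_pow m x T hpp n
  rw [h1] at h
  exact h

theorem fb_pos {Q : Finset ℕ} (n : Nat.factoredNumbers Q) : 0 < (n : ℕ) :=
  Nat.pos_of_ne_zero (Nat.ne_zero_of_mem_factoredNumbers n.2)

theorem fb_Sp (i : ℕ) (Q : Finset ℕ) (m : ℕ) (x : ℕ → ℝ) :
    Sp i Q m x = ∑' n : Nat.factoredNumbers Q, wi i m n / Real.sqrt n * Um n x := by
  have h0 : ∑' n : Nat.factoredNumbers Q, wi i m n / Real.sqrt n * Um n x =
      ∑' n : ℕ, (Nat.factoredNumbers Q).indicator
        (fun n : ℕ => wi i m n / Real.sqrt n * Um n x) n :=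
    tsum_subtype (Nat.factoredNumbers Q) (fun n : ℕ => wi i m n / Real.sqrt n * Um n x)
  rw [h0, Sp]
  refine tsum_congr fun n => ?_
  by_cases hn : n ∈ Nat.factoredNumbers Q
  · rw [Set.indicator_of_mem hn, if_pos (Nat.mem_factoredNumbers_iff_primeFactors_subset.1 hn)]
  · rw [Set.indicator_of_notMem hn,
      if_neg fun h => hn (Nat.mem_factoredNumbers_iff_primeFactors_subset.2 h)]

theorem fb_int {i m : ℕ} (hm : 3 ≤ m) (x : ℕ → ℝ) {n : ℕ} (hn : 0 < n) :
    Integrable (fun T : ℝ => Ai i m T * FOU_f m x T n) :=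
  (ai_int i hm).mul_bdd (c := FOU_g x n) (FOU_meas m x hn).aestronglyMeasurable
    (Eventually.of_forall fun T => FOU_f_le hm x T hn)

theorem fb_int_norm {i m : ℕ} (hm : 3 ≤ m) (x : ℕ → ℝ) {n : ℕ} (hn : 0 < n) :
    ∫ T : ℝ, ‖Ai i m T * FOU_f m x T n‖ ≤ (∫ T : ℝ, ‖Ai i m T‖) * FOU_g x n := by
  rw [← integral_mul_const]
  refine integral_mono (fb_int hm x hn).norm ((ai_int i hm).norm.mul_const _) fun T => ?_
  simp only [norm_mul]
  exact mul_le_mul_of_nonneg_left (FOU_f_le hm x T hn) (norm_nonneg _)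

theorem fb_term {i m : ℕ} (hm : 3 ≤ m) (x : ℕ → ℝ) {n : ℕ} (hn : 1 ≤ n) :
    ∫ T : ℝ, Ai i m T * FOU_f m x T n = ((wi i m n / Real.sqrt n * Um n x : ℝ) : ℂ) := by
  have h7 := wi_fourier i hm hn
  have h8 : (fun T : ℝ => Ai i m T * FOU_f m x T n) =
      fun T : ℝ => ((Um n x : ℂ) / (Real.sqrt n : ℂ)) * (Ai i m T * (n : ℂ) ^ (-(sT m T))) := by
    funext T
    rw [FOU_f]
    ring
  rw [h8, integral_const_mul, ← h7]
  push_cast
  ring

theorem fb_main {i m : ℕ} (hm : 3 ≤ m) {Q : Finset ℕ} (hQ : ∀ p ∈ Q, p.Prime) {x : ℕ → ℝ}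
    (hx : ∀ p, |x p| ≤ 2) :
    HasSum (fun n : Nat.factoredNumbers Q => ∫ T : ℝ, Ai i m T * FOU_f m x T n)
      (∫ T : ℝ, Ai i m T * LQ Q m T x) := by
  have hsum : Summable fun n : Nat.factoredNumbers Q =>
      ∫ T : ℝ, ‖Ai i m T * FOU_f m x T n‖ := by
    have h1 : Summable fun n : Nat.factoredNumbers Q =>
        (∫ T : ℝ, ‖Ai i m T‖) * FOU_g x n := (FOU_summable hx Q).mul_left _
    exact Summable.of_nonneg_of_le (fun n => integral_nonneg fun T => norm_nonneg _)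
      (fun n => fb_int_norm hm x (fb_pos n)) h1
  have h3 := hasSum_integral_of_summable_integral_norm
    (F := fun (n : Nat.factoredNumbers Q) (T : ℝ) => Ai i m T * FOU_f m x T n)
    (fun n => fb_int hm x (fb_pos n)) hsum
  have h4 : (∫ T : ℝ, ∑' n : Nat.factoredNumbers Q, Ai i m T * FOU_f m x T n) =
      ∫ T : ℝ, Ai i m T * LQ Q m T x := by
    refine integral_congr_ae (Eventually.of_forall fun T => ?_)
    exact ((fb_hasSum hQ hm hx T).mul_left (Ai i m T)).tsum_eq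
  rw [h4] at h3
  exact h3

theorem sp_four (i : ℕ) {Q : Finset ℕ} (hQ : ∀ p ∈ Q, p.Prime) {m : ℕ} (hm : 3 ≤ m) {x : ℕ → ℝ}
    (hx : ∀ p ∈ Q, |x p| ≤ 2) : (Sp i Q m x : ℂ) = ∫ T : ℝ, Ai i m T * LQ Q m T x := by
  have h3 := fb_main (i := i) hm hQ (fbx_le hx)
  have h4 : (fun T : ℝ => Ai i m T * LQ Q m T (fbx Q x)) =
      fun T : ℝ => Ai i m T * LQ Q m T x := by
    funext T
    rw [fbx_lq]
  rw [h4] at h3
  rw [← h3.tsum_eq, fb_Sp, Complex.ofReal_tsum]
  refine tsum_congr fun n => ?_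
  rw [fb_term hm _ (fb_pos n),
    fbx_um x (Nat.mem_factoredNumbers_iff_primeFactors_subset.1 n.2).2]

/-! ### measurability and bounds -/

theorem lq_bound {Q : Finset ℕ} (hQ : ∀ p ∈ Q, p.Prime) {m : ℕ} (hm : 3 ≤ m) :
    ∃ C : ℝ, ∀ (T : ℝ) (x : ℕ → ℝ), (∀ p ∈ Q, |x p| ≤ 2) → ‖LQ Q m T x‖ ≤ C := by
  refine ⟨12 ^ Q.card, fun T x hx => ?_⟩
  unfold LQ
  rw [norm_prod]
  refine (Finset.prod_le_prod (fun p _ => norm_nonneg _) (g := fun _ => (12 : ℝ))
    fun p hp => ?_).trans (by rw [Finset.prod_const])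
  exact el_norm (hQ p hp) (FOU_ps hm T (hQ p hp).pos) (hx p hp)

theorem lq_meas (Q : Finset ℕ) (m : ℕ) :
    Measurable (fun z : ℝ × (ℕ → ℝ) => LQ Q m z.1 z.2) := by
  unfold LQ
  refine Finset.measurable_fun_prod _ fun p _ => ?_
  unfold el
  have h1 : Measurable (fun T : ℝ => (p : ℂ) ^ (-(sT m T))) := by
    have h2 : Measurable (fun T : ℝ => -(sT m T)) := (WTF_sTc m).neg.measurable
    exact h2.const_pow (p : ℂ)
  have h3 : Measurable (fun z : ℝ × (ℕ → ℝ) => (p : ℂ) ^ (-(sT m z.1))) :=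
    h1.comp measurable_fst
  have h4 : Measurable (fun z : ℝ × (ℕ → ℝ) => ((z.2 p : ℝ) : ℂ)) :=
    Complex.measurable_ofReal.comp ((measurable_pi_apply p).comp measurable_snd)
  exact ((measurable_const.sub ((h3.mul h4).div_const _)).add
    ((h3.pow_const 2).div_const _)).inv

theorem um_meas (n : ℕ) : Measurable (Um n) := by
  have h : ∀ k : ℕ, Measurable (fun x : ℝ => Uu x k) := by
    intro k
    induction k using Nat.strong_induction_on with
    | _ k ih =>
      rcases k with _ | _ | k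
      · exact measurable_const
      · exact measurable_id
      · exact (measurable_id.mul (ih (k + 1) (by omega))).sub (ih k (by omega))
  unfold Um
  exact Finset.measurable_fun_prod _ fun p _ => (h _).comp (measurable_pi_apply p)

theorem sq_meas (i : ℕ) (Q : Finset ℕ) (m : ℕ) : Measurable (Sq i Q m) := by
  unfold Sq
  exact Finset.measurable_fun_sum _ fun n _ => (um_meas n).const_mul _

theorem sp_meas_i (i : ℕ) (Q : Finset ℕ) (m : ℕ) : Measurable (Sp i Q m) := by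
  unfold Sp
  refine Measurable.tsum fun n => ?_
  split_ifs
  · exact (um_meas n).const_mul _
  · exact measurable_const

/-! ### truncation -/

theorem sp_trunc_i (i : ℕ) : ∃ m₀ : ℕ, ∀ m : ℕ, m₀ ≤ m → ∀ Q : Finset ℕ, ∀ x : ℕ → ℝ,
    (∀ p ∈ Q, |x p| ≤ 2) → |Sp i Q m x - Sq i Q m x| ≤ 1 / m := by
  classical
  obtain ⟨y₀, hy1, hy⟩ := TRN_exp
  obtain ⟨Cw, hCw, hw⟩ := wi_bounds i
  have ht : Tendsto (fun N : ℕ => (N : ℝ) ^ (3 / 5 : ℝ)) atTop atTop :=
    (tendsto_rpow_atTop (by norm_num)).comp tendsto_natCast_atTop_atTop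
  obtain ⟨N₁, hN₁⟩ := eventually_atTop.1 (ht.eventually_ge_atTop y₀)
  refine ⟨max 3 N₁, fun m hm Q x hx => ?_⟩
  have hm3 : 3 ≤ m := (le_max_left _ _).trans hm
  have hNy := hN₁ m ((le_max_right _ _).trans hm)
  have hm0 : (0 : ℝ) < m := by exact_mod_cast (by omega : 0 < m)
  have hm1 : (1 : ℝ) ≤ m := by exact_mod_cast (by omega : 1 ≤ m)
  set F : ℕ → ℝ := fun n => if n ≠ 0 ∧ n.primeFactors ⊆ Q then
    wi i m n / Real.sqrt n * Um n x else 0 with hF
  set G : ℕ → ℝ := fun n => if n ∈ Finset.Icc 1 (X0 m) then 0 else F n with hG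
  have hGb : ∀ n, ‖G n‖ ≤ 1 / (2 * m) * (1 / (n : ℝ) ^ 2) := by
    intro n
    simp only [hG]
    split_ifs with h
    · rw [norm_zero]
      positivity
    · simp only [hF]
      split_ifs with h2
      · have hn : X0 m < n := by
          by_contra h3
          exact h (Finset.mem_Icc.2 ⟨by omega, by omega⟩)
        have hn' : (m : ℝ) ^ (3 / 5 : ℝ) ≤ n := by
          unfold X0 at hn
          exact (Nat.lt_of_floor_lt hn).le
        refine le_trans ?_ (TRN_term hy1 hy (by omega) hNy hn')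
        obtain ⟨w0, -, w2⟩ := hw m n hm3 (by omega)
        have w2' := w2 (le_trans (Real.rpow_le_rpow_of_exponent_le hm1 (by norm_num)) hn')
        have hu := TRN_um h2.1 (fun p hp => hx p (h2.2 hp))
        have hn1 : (1 : ℝ) ≤ n := by exact_mod_cast (by omega : 1 ≤ n)
        have hsq : 1 ≤ Real.sqrt n := by
          rw [← Real.sqrt_one]
          exact Real.sqrt_le_sqrt hn1
        rw [norm_mul, norm_div, Real.norm_eq_abs, Real.norm_eq_abs, Real.norm_eq_abs, abs_of_nonneg w0,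
          abs_of_nonneg (Real.sqrt_nonneg _)]
        calc wi i m n / Real.sqrt n * |Um n x|
            ≤ Real.exp (-2 * Real.pi * n * (m : ℝ) ^ (-(11 / 20) : ℝ)) * n := by
              refine mul_le_mul ?_ hu (abs_nonneg _) (Real.exp_pos _).le
              exact (div_le_self w0 hsq).trans w2'
          _ = _ := by ring
      · rw [norm_zero]
        positivity
  have hz := hasSum_zeta_two
  have hsb : Summable (fun n : ℕ => 1 / (2 * (m : ℝ)) * (1 / (n : ℝ) ^ 2)) := (hz.summable).mul_left _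
  have hGs : Summable G := Summable.of_norm_bounded hsb hGb
  have hfin : Summable (fun n => if n ∈ Finset.Icc 1 (X0 m) then F n else 0) :=
    summable_of_ne_finset_zero (s := Finset.Icc 1 (X0 m)) (fun n hn => if_neg hn)
  have hsplit : ∀ n, F n = (if n ∈ Finset.Icc 1 (X0 m) then F n else 0) + G n := by
    intro n
    simp only [hG]
    split_ifs <;> simp
  have hSP : Sp i Q m x = Sq i Q m x + ∑' n, G n := by
    have e1 : Sp i Q m x = ∑' n, F n := by
      unfold Sp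
      refine tsum_congr fun n => ?_
      simp only [hF]
    rw [e1, tsum_congr hsplit, hfin.tsum_add hGs]
    congr 1
    rw [tsum_eq_sum (s := Finset.Icc 1 (X0 m)) (fun n hn => if_neg hn)]
    unfold Sq
    rw [Finset.sum_filter]
    refine Finset.sum_congr rfl fun n hn => ?_
    rw [if_pos hn]
    simp only [hF]
    rw [Finset.mem_Icc] at hn
    by_cases hc : n.primeFactors ⊆ Q
    · rw [if_pos hc, if_pos ⟨by omega, hc⟩]
    · rw [if_neg hc, if_neg (fun h => hc h.2)]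
  rw [hSP, add_sub_cancel_left, ← Real.norm_eq_abs]
  refine (tsum_of_norm_bounded hsb.hasSum hGb).trans ?_
  rw [tsum_mul_left, hz.tsum_eq]
  have hpi : Real.pi ^ 2 / 6 ≤ 2 := by
    nlinarith [Real.pi_lt_d2, Real.pi_gt_three]
  calc 1 / (2 * (m : ℝ)) * (Real.pi ^ 2 / 6) ≤ 1 / (2 * (m : ℝ)) * 2 :=
        mul_le_mul_of_nonneg_left hpi (by positivity)
    _ = 1 / m := by field_simp

end Pool.Agent.TU
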