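import Pool.Agent.Lib_helper84.TU.Defs
import Pool.Agent.Lib_helper68.LEV.PRM
import Pool.Agent.Lib_helper41.LVBF.PSB

/-! T12 III, block HBq: sums over the mollifying primes -/

set_option autoImplicit false

namespace Pool.Agent.TU

open Pool.Agent.LEV Pool.Agent.LVB
open Complex MeasureTheory Filter Topology ProbabilityTheory

theorem hbq_omega {q : ℕ} (hq : 0 < q) : (q.primeFactors.card : ℝ) * Real.log 2 ≤ Real.log q := by
  have h1 : ((∏ p ∈ q.primeFactors, p : ℕ) : ℝ) ≤ q := by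
    exact_mod_cast Nat.le_of_dvd hq (Nat.prod_primeFactors_dvd q)
  have h0 : 0 < ((∏ p ∈ q.primeFactors, p : ℕ) : ℝ) := by
    exact_mod_cast Finset.prod_pos fun p hp => (Nat.prime_of_mem_primeFactors hp).pos
  have h2 := Real.log_le_log h0 h1
  have h3 : Real.log ((∏ p ∈ q.primeFactors, p : ℕ) : ℝ) = ∑ p ∈ q.primeFactors, Real.log p := by
    push_cast
    rw [Real.log_prod]
    intro p hp
    exact_mod_cast (Nat.prime_of_mem_primeFactors hp).ne_zero
  rw [h3] at h2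
  refine le_trans ?_ h2
  rw [← nsmul_eq_mul, ← Finset.sum_const]
  refine Finset.sum_le_sum fun p hp => Real.log_le_log (by norm_num) ?_
  exact_mod_cast (Nat.prime_of_mem_primeFactors hp).two_le

/-- the prime divisors of `q` -/
theorem hbq_div : ∃ C : ℝ, 0 ≤ C ∧ ∀ L : ℝ, 2 ≤ L → ∀ q : ℕ, 0 < q → Real.log q ≤ L →
    ∑ p ∈ q.primeFactors, 1 / (p : ℝ) ≤ Real.log (Real.log L) + C := by
  obtain ⟨C, hC⟩ := mertens_two
  have hC0 : 0 ≤ C := (abs_nonneg _).trans (hC 2 le_rfl)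
  refine ⟨C + 3, by linarith, fun L hL q hq hqL => ?_⟩
  have hL0 : 0 < L := by linarith
  rw [← Finset.sum_filter_add_sum_filter_not q.primeFactors (fun p : ℕ => (p : ℝ) ≤ L)]
  have h1 : ∑ p ∈ q.primeFactors.filter (fun p : ℕ => (p : ℝ) ≤ L), 1 / (p : ℝ) ≤
      Real.log (Real.log L) + C := by
    apply psb_all hC hL
    intro p hp
    rw [Finset.mem_filter] at hp
    exact ⟨Nat.prime_of_mem_primeFactors hp.1, hp.2⟩
  have h2 : ∑ p ∈ q.primeFactors.filter (fun p : ℕ => ¬ (p : ℝ) ≤ L), 1 / (p : ℝ) ≤ 3 := by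
    calc ∑ p ∈ q.primeFactors.filter (fun p : ℕ => ¬ (p : ℝ) ≤ L), 1 / (p : ℝ)
        ≤ ∑ _p ∈ q.primeFactors.filter (fun p : ℕ => ¬ (p : ℝ) ≤ L), 1 / L := by
          refine Finset.sum_le_sum fun p hp => ?_
          rw [Finset.mem_filter] at hp
          exact one_div_le_one_div_of_le hL0 (not_le.1 hp.2).le
      _ ≤ ∑ _p ∈ q.primeFactors, 1 / L :=
          Finset.sum_le_sum_of_subset_of_nonneg (Finset.filter_subset _ _)
            (fun _ _ _ => by positivity)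
      _ = q.primeFactors.card * (1 / L) := by rw [Finset.sum_const, nsmul_eq_mul]
      _ ≤ 3 := by
          have h3 := hbq_omega hq
          have h4 : (0.6 : ℝ) < Real.log 2 := by linarith [Real.log_two_gt_d9]
          have h5 : (0 : ℝ) ≤ (q.primeFactors.card : ℝ) := by positivity
          rw [mul_one_div, div_le_iff₀ hL0]
          nlinarith
  linarith

theorem hbq_small {c : ℝ} (hc : 0 < c) (C : ℝ) : ∀ᶠ N : ℕ in atTop,
    C ≤ c * Real.log (Real.log (Real.log (N : ℝ))) := by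
  have h := Real.tendsto_log_atTop.comp PRM_tendsto
  have h2 := (h.const_mul_atTop hc).eventually_ge_atTop C
  exact h2

theorem hbq : ∃ N₀ : ℕ, ∀ N : ℕ, N₀ ≤ N → ∀ q : ℕ, 0 < q → (q : ℝ) ≤ N →
    (∀ p ∈ Qp q N, p.Prime ∧ p < N) ∧ Iq q N ⊆ Qp q N ∧
    HB (Iq q N) ≤ Real.log (Real.log N) ∧
    Real.log (Real.log N) - 4 * Real.log (Real.log (Real.log N)) ≤ HB (Iq q N) ∧
    ∑ p ∈ Qp q N \ Iq q N, 1 / (p : ℝ) ≤ 3 * Real.log (Real.log (Real.log N)) ∧
    1 ≤ Real.log (Real.log (Real.log N)) := by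
  obtain ⟨C, hC⟩ := mertens_two
  obtain ⟨C', hC', hdiv⟩ := hbq_div
  obtain ⟨N1, h1⟩ := in_sum
  obtain ⟨N2, h2⟩ := params
  obtain ⟨N3, h3⟩ := eventually_atTop.1 (hbq_small (c := 1 / 10) (by norm_num) (C' + |C| + 1))
  refine ⟨max (max N1 N2) (max N3 3), fun N hN q hq hqN => ?_⟩
  have n1 : N1 ≤ N := (le_max_left _ _).trans ((le_max_left _ _).trans hN)
  have n2 : N2 ≤ N := (le_max_right _ _).trans ((le_max_left _ _).trans hN)
  have n3 : N3 ≤ N := (le_max_left _ _).trans ((le_max_right _ _).trans hN)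
  have n4 : 3 ≤ N := (le_max_right _ _).trans ((le_max_right _ _).trans hN)
  obtain ⟨s1, s2⟩ := h1 N n1
  obtain ⟨p1, -, -, -, -, -, -, p8⟩ := h2 N n2
  have c1 := h3 N n3
  have hNpos : (0 : ℝ) < N := by exact_mod_cast (by omega : 0 < N)
  obtain ⟨L, hL⟩ : ∃ L, L = Real.log N := ⟨_, rfl⟩
  have hL2 : 2 ≤ L := by
    have h5 : Real.log L ≤ L := by
      by_cases h6 : 0 < L
      · have := Real.add_one_le_exp (Real.log L)
        rw [Real.exp_log h6] at this
        linarith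
      · have h7 := p1
        rw [← hL] at h7
        have h8 : L = 0 := le_antisymm (not_lt.1 h6) (by
          rw [hL]; exact Real.log_nonneg (by exact_mod_cast (by omega : 1 ≤ N)))
        rw [h8, Real.log_zero] at h7
        linarith
    rw [← hL] at p1
    linarith
  rw [← hL] at s1 s2 p1 c1 ⊢
  have hCC := le_abs_self C
  have hCC0 := abs_nonneg C
  have hsub : IN N ⊆ Pr N := by
    intro p hp
    obtain ⟨hpp, hpN⟩ := p8 p hp
    rw [Pr, Finset.mem_filter, Finset.mem_range]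
    exact ⟨hpN, hpp⟩
  refine ⟨?_, ?_, ?_, ?_, ?_, by linarith⟩
  · intro p hp
    rw [Qp, Finset.mem_filter, Pr, Finset.mem_filter, Finset.mem_range] at hp
    exact ⟨hp.1.2, hp.1.1⟩
  · unfold Iq Qp
    exact Finset.filter_subset_filter _ hsub
  · refine le_trans ?_ s2
    unfold HB Iq
    exact Finset.sum_le_sum_of_subset_of_nonneg (Finset.filter_subset _ _)
      (fun _ _ _ => by positivity)
  · have h5 : ∑ p ∈ IN N, 1 / (p : ℝ) = HB (Iq q N) +
        ∑ p ∈ (IN N).filter (fun p => ¬ ¬ p ∣ q), 1 / (p : ℝ) := by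
      unfold HB Iq
      rw [Finset.sum_filter_add_sum_filter_not]
    have h6 : ∑ p ∈ (IN N).filter (fun p => ¬ ¬ p ∣ q), 1 / (p : ℝ) ≤
        ∑ p ∈ q.primeFactors, 1 / (p : ℝ) := by
      refine Finset.sum_le_sum_of_subset_of_nonneg (fun p hp => ?_) (fun _ _ _ => by positivity)
      rw [Finset.mem_filter, not_not] at hp
      rw [Nat.mem_primeFactors]
      exact ⟨(p8 p hp.1).1, hp.2, hq.ne'⟩
    have h7 := hdiv L hL2 q hq (by
      rw [hL]; exact Real.log_le_log (by exact_mod_cast hq) hqN)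
    linarith
  · have h5 : ∑ p ∈ Qp q N \ Iq q N, 1 / (p : ℝ) ≤ ∑ p ∈ Pr N \ IN N, 1 / (p : ℝ) := by
      refine Finset.sum_le_sum_of_subset_of_nonneg (fun p hp => ?_) (fun _ _ _ => by positivity)
      rw [Finset.mem_sdiff] at hp ⊢
      unfold Qp Iq at hp
      rw [Finset.mem_filter, Finset.mem_filter] at hp
      exact ⟨hp.1.1, fun h => hp.2 ⟨h, hp.1.2⟩⟩
    have h6 : ∑ p ∈ Pr N \ IN N, 1 / (p : ℝ) + ∑ p ∈ IN N, 1 / (p : ℝ) =
        ∑ p ∈ Pr N, 1 / (p : ℝ) := Finset.sum_sdiff hsub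
    have h7 : ∑ p ∈ Pr N, 1 / (p : ℝ) ≤ Real.log (Real.log N) + C := by
      apply psb_all hC (by exact_mod_cast (by omega : 2 ≤ N))
      intro p hp
      rw [Pr, Finset.mem_filter, Finset.mem_range] at hp
      exact ⟨hp.2, by exact_mod_cast hp.1.le⟩
    rw [← hL] at h7
    linarith

end Pool.Agent.TU
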