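import Pool.Agent.Lib_helper84.TU.MM
import Pool.Agent.Lib_helper41.LVBF.TRA
import Pool.Agent.Lib_helper41.LVBF.LEN

/-! T12 III, block HT: the twisted polynomials and their transfer to the model -/

set_option autoImplicit false

namespace Pool.Agent.TU

open Pool.Agent.LEV Pool.Agent.LVB
open Pool.Agent.LK (PQ V)
open Pool.Agent.LX (dl)
open Complex MeasureTheory Filter Topology ProbabilityTheory

section
variable {q : ℕ} [NeZero q] {χ : DirichletCharacter ℂ q}

/-- a real character takes the values `0, 1, -1` -/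
theorem cr_val (hχ : PQ χ) (n : ℕ) : (χ n = 0 ∧ ¬ n.Coprime q) ∨
    ((χ n = 1 ∨ χ n = -1) ∧ n.Coprime q) := by
  by_cases h : IsUnit (n : ZMod q)
  · right
    refine ⟨?_, (ZMod.isUnit_iff_coprime n q).1 h⟩
    obtain ⟨u, hu⟩ := h
    have h3 : (χ ^ 2) (n : ZMod q) = (1 : DirichletCharacter ℂ q) (n : ZMod q) := by
      rw [hχ.sq]
    rw [← hu] at h3 ⊢
    rw [MulChar.pow_apply_coe, MulChar.one_apply_coe] at h3
    exact sq_eq_one_iff.1 h3
  · left
    exact ⟨χ.map_nonunit h, fun hc => h ((ZMod.isUnit_iff_coprime n q).2 hc)⟩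

theorem cr_sq (hχ : PQ χ) {n : ℕ} (h : n.Coprime q) : (χ n).re ^ 2 = 1 := by
  rcases cr_val hχ n with h1 | ⟨h1 | h1, -⟩
  · exact absurd h h1.2
  · rw [h1]; norm_num
  · rw [h1]; norm_num

theorem cr_sq_le (hχ : PQ χ) (n : ℕ) : (χ n).re ^ 2 ≤ 1 := by
  rcases cr_val hχ n with h1 | ⟨h1 | h1, -⟩
  · rw [h1.1]; norm_num
  · rw [h1]; norm_num
  · rw [h1]; norm_num

theorem cr_zero (hχ : PQ χ) {n : ℕ} (h : ¬ n.Coprime q) : χ n = 0 := by
  rcases cr_val hχ n with h1 | ⟨-, h1⟩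
  · exact h1.1
  · exact absurd h1 h

theorem cr_im (hχ : PQ χ) (n : ℕ) : ((χ n).re : ℂ) = χ n := by
  rcases cr_val hχ n with h1 | ⟨h1 | h1, -⟩
  · rw [h1.1]; simp
  · rw [h1]; simp
  · rw [h1]; simp

theorem cr_mul (hχ : PQ χ) (a b : ℕ) : (χ ((a * b : ℕ) : ZMod q)).re = (χ a).re * (χ b).re := by
  have h : ((χ ((a * b : ℕ) : ZMod q)).re : ℂ) = ((χ a).re : ℂ) * ((χ b).re : ℂ) := by
    rw [cr_im hχ (a * b), cr_im hχ a, cr_im hχ b, Nat.cast_mul, map_mul]
  exact_mod_cast h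

theorem cr_pow (hχ : PQ χ) (a k : ℕ) : (χ ((a ^ k : ℕ) : ZMod q)).re = (χ a).re ^ k := by
  have h : ((χ ((a ^ k : ℕ) : ZMod q)).re : ℂ) = ((χ a).re : ℂ) ^ k := by
    rw [cr_im hχ (a ^ k), cr_im hχ a, Nat.cast_pow, map_pow]
  exact_mod_cast h

theorem uu_sign {e : ℝ} (he : e ^ 2 = 1) (x : ℝ) (k : ℕ) : Uu (e * x) k = e ^ k * Uu x k := by
  induction k using Nat.strong_induction_on with
  | _ k ih =>
    rcases k with _ | _ | k
    · simp [Uu]
    · simp [Uu]
    · have h1 := ih (k + 1) (by omega)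
      have h2 := ih k (by omega)
      show e * x * Uu (e * x) (k + 1) - Uu (e * x) k = e ^ (k + 2) * (x * Uu x (k + 1) - Uu x k)
      rw [h1, h2, pow_add e k 2, he, pow_succ]
      linear_combination (e ^ k * x * Uu x (k + 1)) * he

theorem um_tx (hχ : PQ χ) {n : ℕ} (hn : n ≠ 0) (hc : n.Coprime q) (x : ℕ → ℝ) :
    Um n (tx χ x) = (χ n).re * Um n x := by
  unfold Um tx
  have h1 : ∀ p ∈ n.primeFactors, Uu ((χ p).re * x p) (n.factorization p) =
      (χ p).re ^ (n.factorization p) * Uu (x p) (n.factorization p) := by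
    intro p hp
    refine uu_sign (cr_sq hχ ?_) _ _
    exact Nat.Coprime.coprime_dvd_left (Nat.dvd_of_mem_primeFactors hp) hc
  rw [Finset.prod_congr rfl h1, Finset.prod_mul_distrib]
  congr 1
  have h2 : n = ∏ p ∈ n.primeFactors, p ^ n.factorization p := by
    have h := Nat.prod_factorization_pow_eq_self hn
    rw [Nat.prod_factorization_eq_prod_primeFactors] at h
    exact h.symm
  have h3 : (((χ n).re : ℝ) : ℂ) = ((∏ p ∈ n.primeFactors, (χ p).re ^ n.factorization p : ℝ) : ℂ) := by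
    rw [cr_im hχ n]
    conv_lhs => rw [h2]
    push_cast
    rw [map_prod]
    refine Finset.prod_congr rfl fun p _ => ?_
    rw [map_pow, cr_im hχ p]
  exact_mod_cast h3.symm

omit [NeZero q] in
theorem qp_coprime {N n : ℕ} (hn : n ≠ 0) (h : n.primeFactors ⊆ Qp q N) : n.Coprime q := by
  rw [Nat.coprime_iff_gcd_eq_one]
  by_contra hg
  obtain ⟨p, hp, hd⟩ := Nat.exists_prime_and_dvd hg
  have h1 := (Nat.dvd_gcd_iff.1 hd)
  have h2 : p ∈ n.primeFactors := Nat.mem_primeFactors.2 ⟨hp, h1.1, hn⟩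
  have h3 := h h2
  rw [Qp, Finset.mem_filter] at h3
  exact h3.2 h1.2

end

section
variable {N : ℕ} [Fact N.Prime] {q : ℕ} [NeZero q] {χ : DirichletCharacter ℂ q}

/-- transfer of the second moment of a twisted polynomial to the random model -/
theorem transfer_tw (hχ : PQ χ) {ι : Type} [Fintype ι] (f : ι → S2 N) (hi : Function.Injective f)
    (hn : ∀ i, IsNew (f i)) {X : ℕ} (hX1 : 1 ≤ X) (hX : 4 * X ≤ N)
    {P : Measure (ℕ → ℝ)} (hP : IsST (Qp q N) P) {G : (ℕ → ℝ) → ℝ} (hG : HPoly (Qp q N) X G) :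
    ∑ i, om (f i) * G (tx χ (la (f i))) ^ 2 ≤ Real.exp (4 * Real.pi) * ∫ x, G x ^ 2 ∂P := by
  obtain ⟨b, hb, hG'⟩ := hG
  have hQ : ∀ p ∈ Qp q N, p.Prime ∧ p < N := by
    intro p hp
    rw [Qp, Finset.mem_filter, Pr, Finset.mem_filter, Finset.mem_range] at hp
    exact ⟨hp.1.2, hp.1.1⟩
  have e1 : ∀ i, G (tx χ (la (f i))) = ∑ m ∈ Finset.Icc 1 X, (b m * (χ m).re) * la (f i) m := by
    intro i
    rw [hG' (tx χ (la (f i)))]
    refine Finset.sum_congr rfl fun m _ => ?_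
    by_cases hcz : b m = 0
    · rw [hcz, zero_mul, zero_mul, zero_mul]
    · obtain ⟨g1, g2, g3⟩ := hb m hcz
      have hco : m.Coprime N := by
        rw [Nat.coprime_comm, (Fact.out : N.Prime).coprime_iff_not_dvd]
        intro hd
        have : N ∈ m.primeFactors := Nat.mem_primeFactors.mpr ⟨Fact.out, hd, by omega⟩
        exact absurd (hQ N (g3 this)).2 (lt_irrefl _)
      rw [um_tx hχ (by omega) (qp_coprime (by omega) g3),
        um_new (hn i) (new_real (hn i)) (by omega) hco]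
      ring
  have e2 : ∫ x, G x ^ 2 ∂P = ∑ m ∈ Finset.Icc 1 X, b m ^ 2 := by
    rw [← st_sq (fun p hp => (hQ p hp).1) hP hb]
    exact integral_congr_ae (Filter.Eventually.of_forall fun x => by simp only [hG' x])
  rw [e2]
  simp_rw [e1]
  have hXr : (X : ℝ) ≤ (1 / 2 : ℝ) ^ 2 * N := by
    have : (4 : ℝ) * X ≤ N := by exact_mod_cast hX
    linarith
  have h := ls_sharp f hi hn (ν := 1 / 2) (by norm_num) (by norm_num) hX1 hXr
    (fun m => b m * (χ m).re) 0
  simp only [zero_mul, add_zero, ne_eq, OfNat.ofNat_ne_zero, not_false_eq_true, zero_pow] at h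
  have e3 : 8 * Real.pi * (1 / 2) = 4 * Real.pi := by ring
  rw [e3] at h
  refine h.trans (mul_le_mul_of_nonneg_left (Finset.sum_le_sum fun m _ => ?_) (Real.exp_pos _).le)
  rw [mul_pow]
  exact mul_le_of_le_one_right (sq_nonneg _) (cr_sq_le hχ m)

/-- the sum over the primes -/
theorem px_sq : ∃ N₀ : ℕ, ∀ (N : ℕ) [Fact N.Prime], N₀ ≤ N → ∀ (q : ℕ) [NeZero q]
    (χ : DirichletCharacter ℂ q), PQ χ → ∀ {ι : Type} [Fintype ι] (f : ι → S2 N),
    Function.Injective f → (∀ i, IsNew (f i)) →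
    ∑ i, om (f i) * PX χ (f i) ^ 2 ≤ Real.exp (4 * Real.pi) * Real.log (Real.log N) := by
  obtain ⟨N1, h1⟩ := params
  obtain ⟨N2, h2⟩ := in_sum
  refine ⟨max (max N1 N2) 16, fun N _ hN q _ χ hχ ι _ f hi hn => ?_⟩
  have n1 : N1 ≤ N := (le_max_left _ _).trans ((le_max_left _ _).trans hN)
  have n2 : N2 ≤ N := (le_max_right _ _).trans ((le_max_left _ _).trans hN)
  have n3 : 16 ≤ N := (le_max_right _ _).trans hN
  obtain ⟨p1, p2, p3, p4, -, -, p7, p8⟩ := h1 N n1
  have hz0 : 0 < zN N := Real.exp_pos _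
  have hN0 : (0 : ℝ) < N := by exact_mod_cast (by omega : 0 < N)
  have hz1 : 1 ≤ zN N := by
    unfold zN
    apply Real.one_le_exp
    have : 0 ≤ Real.log (N : ℝ) := Real.log_nonneg (by exact_mod_cast (by omega : 1 ≤ N))
    positivity
  obtain ⟨X, hX⟩ : ∃ X, X = ⌊zN N⌋₊ := ⟨_, rfl⟩
  have hX1 : 1 ≤ X := by
    rw [hX]
    exact Nat.le_floor (by exact_mod_cast hz1)
  have hXr : (X : ℝ) ≤ zN N := by
    rw [hX]
    exact Nat.floor_le hz0.le
  have hX4 : (X : ℝ) ≤ (1 / 2 : ℝ) ^ 2 * N := by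
    have h5 : zN N ^ 2 < N := p7
    have h6 : (16 : ℝ) ≤ N := by exact_mod_cast n3
    have h7 : 4 * zN N ≤ N := by
      by_cases h8 : zN N ≤ 4
      · linarith
      · push Not at h8
        nlinarith
    linarith
  have h := ls_sharp f hi hn (ν := 1 / 2) (by norm_num) (by norm_num) hX1 hX4
    (fun n => if n ∈ IN N then (χ n).re / Real.sqrt n else 0) 0
  simp only [zero_mul, add_zero, ne_eq, OfNat.ofNat_ne_zero, not_false_eq_true, zero_pow] at h
  have e3 : 8 * Real.pi * (1 / 2) = 4 * Real.pi := by ring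
  rw [e3] at h
  have hsub : IN N ⊆ Finset.Icc 1 X := by
    intro p hp
    rw [hX]
    exact (Finset.mem_filter.1 hp).1
  have e4 : ∀ i, ∑ n ∈ Finset.Icc 1 X, (if n ∈ IN N then (χ n).re / Real.sqrt n else 0) *
      la (f i) n = PX χ (f i) := by
    intro i
    unfold PX
    rw [← Finset.sum_subset hsub (f := fun n => (if n ∈ IN N then (χ n).re / Real.sqrt n else 0) *
      la (f i) n)]
    · refine Finset.sum_congr rfl fun p hp => ?_
      rw [if_pos hp]
      ring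
    · intro n _ hn
      rw [if_neg hn, zero_mul]
  simp only [e4] at h
  refine h.trans (mul_le_mul_of_nonneg_left ?_ (Real.exp_pos _).le)
  refine le_trans ?_ (h2 N n2).2
  rw [← Finset.sum_subset hsub (f := fun n => (if n ∈ IN N then (χ n).re / Real.sqrt n else 0) ^ 2)]
  · refine Finset.sum_le_sum fun p hp => ?_
    rw [if_pos hp, div_pow, Real.sq_sqrt (Nat.cast_nonneg p)]
    exact div_le_div_of_nonneg_right (cr_sq_le hχ p) (Nat.cast_nonneg p)
  · intro n _ hn
    rw [if_neg hn]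
    norm_num

end

end Pool.Agent.TU
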