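import Pool.Agent.Lib_helper84.TU.MO

/-! T12 III, block MM: the second moment in the model -/

set_option autoImplicit false

namespace Pool.Agent.TU

open Pool.Agent.LEV Pool.Agent.LVB
open Complex MeasureTheory Filter Topology ProbabilityTheory

theorem mm_meas (I : Finset ℕ) (K : ℕ) : Measurable (mb1 I K) := by
  have hPB : Measurable (PB I) := by
    unfold PB
    exact Finset.measurable_fun_sum _ fun p _ => (measurable_pi_apply p).div_const _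
  unfold mb1 ex
  refine measurable_const.mul ?_
  exact Finset.measurable_fun_sum _ fun k _ => (hPB.neg.pow_const k).div_const _

theorem mm_log {N : ℕ} : ∃ N₀ : ℕ, ∀ N : ℕ, N₀ ≤ N → Real.log N ^ 5 ≤ (N : ℝ) := by
  obtain ⟨n, -, h⟩ : ∃ N₀ : ℕ, 4 ≤ N₀ ∧ ∀ N : ℕ, N₀ ≤ N → Real.log N ^ 5 ≤ (N : ℝ) / 4 := by
    have h := (Real.isLittleO_pow_log_id_atTop (n := 5)).bound (show (0 : ℝ) < 1 / 4 by norm_num)
    have h2 := tendsto_natCast_atTop_atTop (R := ℝ) |>.eventually h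
    obtain ⟨M, hM⟩ := eventually_atTop.1 h2
    refine ⟨max M 4, le_max_right _ _, fun N hN => ?_⟩
    have h3 := hM N ((le_max_left _ _).trans hN)
    have h5 : ‖id (N : ℝ)‖ = N := by
      rw [id, Real.norm_eq_abs]
      exact abs_of_nonneg (Nat.cast_nonneg N)
    rw [h5, Real.norm_eq_abs] at h3
    have h4 := (le_abs_self _).trans h3
    linarith
  refine ⟨n, fun N hN => ?_⟩
  have := h N hN
  have h0 : (0 : ℝ) ≤ N := Nat.cast_nonneg N
  linarith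

theorem mm_bound : ∃ A₁ : ℕ, 1 ≤ A₁ ∧ ∀ i : ℕ, ∃ (C : ℝ) (N₀ : ℕ), 0 < C ∧ 3 ≤ N₀ ∧
    ∀ N : ℕ, N₀ ≤ N → ∀ q : ℕ, 0 < q → (q : ℝ) ≤ N → ∀ P : Measure (ℕ → ℝ), IsST (Qp q N) P →
      Integrable (fun x => (Sq i (Qp q N) (mN q N) x * mb1 (Iq q N) (Kd A₁ N) x) ^ 2) P ∧
      ∫ x, (Sq i (Qp q N) (mN q N) x * mb1 (Iq q N) (Kd A₁ N) x) ^ 2 ∂P ≤
        C * Real.log (mN q N) ^ (2 * i) * Real.log (Real.log N) ^ 6 := by
  obtain ⟨A₁, Cm, N1, hN13, hA1, hCm, hmo⟩ := mo_block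
  refine ⟨A₁, hA1, fun i => ?_⟩
  obtain ⟨Ca, hCa, hdec⟩ := ai_decay i 10
  obtain ⟨N2, h2⟩ := hbq
  obtain ⟨N3, h3⟩ := sp_trunc_i i
  obtain ⟨N4, h4⟩ := mm_log (N := 0)
  obtain ⟨W, hW⟩ : ∃ W, W = ∫ T : ℝ, ((1 + |T|) ^ 2)⁻¹ := ⟨_, rfl⟩
  have hW0 : 0 ≤ W := by
    rw [hW]
    exact integral_nonneg fun T => by positivity
  refine ⟨2 * (Ca * W * (Ca * Cm * W)) + 2 * Cm, max (max N1 N2) (max N3 (max N4 3)),
    by positivity, (le_max_right _ _).trans ((le_max_right _ _).trans (le_max_right _ _)),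
    fun N hN q hq hqN P hP => ?_⟩
  have n1 : N1 ≤ N := (le_max_left _ _).trans ((le_max_left _ _).trans hN)
  have n2 : N2 ≤ N := (le_max_right _ _).trans ((le_max_left _ _).trans hN)
  have n3 : N3 ≤ N := (le_max_left _ _).trans ((le_max_right _ _).trans hN)
  have n4 : N4 ≤ N := (le_max_left _ _).trans ((le_max_right _ _).trans
    ((le_max_right _ _).trans hN))
  obtain ⟨g1, g2, -, -, -, g6⟩ := h2 N n2 q hq hqN
  obtain ⟨⟨hMi, hMb⟩, hT⟩ := hmo N n1 q hq hqN P hP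
  have hprob := hP.prob
  have hQp : ∀ p ∈ Qp q N, p.Prime := fun p hp => (g1 p hp).1
  have hmN : N ≤ mN q N := by
    unfold mN
    exact Nat.le_mul_of_pos_right _ (by positivity)
  have hm3 : 3 ≤ mN q N := by omega
  obtain ⟨m, hm⟩ : ∃ m, m = mN q N := ⟨_, rfl⟩
  rw [← hm] at hmN hm3 hT ⊢
  have hl3 := g6
  have hll : 1 ≤ Real.log (Real.log N) := by
    have h5 : 0 < Real.log (Real.log N) := by
      by_contra h
      have : Real.log (Real.log (Real.log N)) ≤ 0 ∨ True := Or.inr trivial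
      have h6 : Real.log (Real.log N) ≤ 0 := not_lt.1 h
      have h7 : 0 ≤ Real.log (N : ℝ) := Real.log_nonneg (by exact_mod_cast (by omega : 1 ≤ N))
      have h8 : Real.log N ≤ 1 ∨ Real.log N = 0 := by
        by_cases h9 : Real.log N = 0
        · exact Or.inr h9
        · left
          have h10 : 0 < Real.log N := lt_of_le_of_ne h7 (Ne.symm h9)
          by_contra h11
          have := Real.log_pos (not_le.1 h11)
          linarith
      obtain ⟨f1, f2, f3, f4, f5, f6⟩ := h2 N n2 q hq hqN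
      unfold HB at f3
      have h12 : 0 ≤ ∑ p ∈ Iq q N, 1 / (p : ℝ) := Finset.sum_nonneg fun _ _ => by positivity
      have h13 : Real.log (Real.log N) = 0 := le_antisymm h6 (by linarith)
      rw [h13, Real.log_zero] at g6
      linarith
    have h6 := Real.add_one_le_exp (Real.log (Real.log (Real.log N)))
    rw [Real.exp_log h5] at h6
    linarith
  have hm0 : (0 : ℝ) < m := by exact_mod_cast (by omega : 0 < m)
  have hlm : 1 ≤ Real.log m := by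
    rw [Real.le_log_iff_exp_le hm0]
    have : (3 : ℝ) ≤ m := by exact_mod_cast hm3
    linarith [Real.exp_one_lt_d9]
  obtain ⟨CL, hCL⟩ := lq_bound hQp hm3
  have hbd : ∀ᵐ x ∂P, ∀ p ∈ Qp q N, |x p| ≤ 2 := hP.bdd
  obtain ⟨l, hl⟩ : ∃ l, l = Real.log m ^ i := ⟨_, rfl⟩
  have hl1 : 1 ≤ l := by rw [hl]; exact one_le_pow₀ hlm
  obtain ⟨e, he⟩ : ∃ e, e = Real.log (Real.log N) ^ 6 := ⟨_, rfl⟩
  have he1 : 1 ≤ e := by rw [he]; exact one_le_pow₀ hll
  have hMeas := mm_meas (Iq q N) (Kd A₁ N)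
  have h3T : ∀ T : ℝ, ‖Ai i m T‖ * ∫ x, mb1 (Iq q N) (Kd A₁ N) x ^ 2 * ‖LQ (Qp q N) m T x‖ ^ 2 ∂P ≤
      (Ca * Cm * l * e) * ((1 + |T|) ^ 2)⁻¹ := by
    intro T
    have a1 := hdec m hm3 T
    have a2 := (hT T).2
    have hT0 := abs_nonneg T
    calc ‖Ai i m T‖ * ∫ x, mb1 (Iq q N) (Kd A₁ N) x ^ 2 * ‖LQ (Qp q N) m T x‖ ^ 2 ∂P
        ≤ (Ca * Real.log m ^ i * ((1 + |T|) ^ 10)⁻¹) *
          (Cm * Real.log (Real.log N) ^ 6 * (1 + |T|) ^ 8) :=
          mul_le_mul a1 a2 (integral_nonneg fun x => by positivity) (by positivity)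
      _ = (Ca * Cm * l * e) * (((1 + |T|) ^ 10)⁻¹ * (1 + |T|) ^ 8) := by rw [hl, he]; ring
      _ = (Ca * Cm * l * e) * ((1 + |T|) ^ 2)⁻¹ := by
          congr 1
          field_simp
  have h2T : ∀ T : ℝ, ‖Ai i m T‖ ≤ (Ca * l) * ((1 + |T|) ^ 2)⁻¹ := by
    intro T
    have hT0 := abs_nonneg T
    rw [hl]
    refine (hdec m hm3 T).trans (mul_le_mul_of_nonneg_left ?_ (by positivity))
    exact inv_anti₀ (by positivity) (pow_le_pow_right₀ (by linarith) (by norm_num))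
  have h1T : ∀ T : ℝ, ‖Ai i m T‖ * ‖∫ x, (mb1 (Iq q N) (Kd A₁ N) x : ℂ) *
      LQ (Qp q N) m T x ∂P - 1‖ ≤ (2 * (Ca * l) + Ca * Cm * l * e) * ((1 + |T|) ^ 2)⁻¹ := by
    intro T
    have a1 : ‖∫ x, (mb1 (Iq q N) (Kd A₁ N) x : ℂ) * LQ (Qp q N) m T x ∂P - 1‖ ≤
        2 + ∫ x, mb1 (Iq q N) (Kd A₁ N) x ^ 2 * ‖LQ (Qp q N) m T x‖ ^ 2 ∂P := by
      refine (norm_sub_le _ _).trans ?_
      rw [norm_one]
      have a2 : ‖∫ x, (mb1 (Iq q N) (Kd A₁ N) x : ℂ) * LQ (Qp q N) m T x ∂P‖ ≤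
          ∫ x, (1 + mb1 (Iq q N) (Kd A₁ N) x ^ 2 * ‖LQ (Qp q N) m T x‖ ^ 2) ∂P := by
        refine norm_integral_le_of_norm_le ((integrable_const 1).add (hT T).1)
          (Eventually.of_forall fun x => ?_)
        rw [norm_mul, Complex.norm_real, Real.norm_eq_abs]
        have a3 : (|mb1 (Iq q N) (Kd A₁ N) x| * ‖LQ (Qp q N) m T x‖) ^ 2 =
            mb1 (Iq q N) (Kd A₁ N) x ^ 2 * ‖LQ (Qp q N) m T x‖ ^ 2 := by
          rw [mul_pow, sq_abs]
        nlinarith [sq_nonneg (|mb1 (Iq q N) (Kd A₁ N) x| * ‖LQ (Qp q N) m T x‖ - 1),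
          mul_nonneg (abs_nonneg (mb1 (Iq q N) (Kd A₁ N) x)) (norm_nonneg (LQ (Qp q N) m T x))]
      rw [integral_add (integrable_const 1) (hT T).1] at a2
      simp only [integral_const, probReal_univ, smul_eq_mul, mul_one] at a2
      linarith
    have a4 := mul_le_mul_of_nonneg_left a1 (norm_nonneg (Ai i m T))
    have a5 := h2T T
    have a6 := h3T T
    rw [mul_add] at a4
    linarith
  have key := MMN_abs (P := P) (Ai i m) (LQ (Qp q N) m) (mb1 (Iq q N) (Kd A₁ N)) (Sp i (Qp q N) m)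
    (ai_int i hm3) (lq_meas _ _) CL (hbd.mono fun x hx T => hCL T x hx) hMeas hMi
    (hbd.mono fun x hx => sp_four i hQp hm3 hx) (sp_meas_i _ _ _)
    (fun T : ℝ => ((1 + |T|) ^ 2)⁻¹) MMN_w (2 * (Ca * l) + Ca * Cm * l * e) (Ca * l)
    (Ca * Cm * l * e) h1T h2T h3T
  rw [← hW] at key
  obtain ⟨-, k2, k3⟩ := key
  have hae : ∀ᵐ x ∂P, (Sq i (Qp q N) m x * mb1 (Iq q N) (Kd A₁ N) x) ^ 2 ≤
      2 * (Sp i (Qp q N) m x * mb1 (Iq q N) (Kd A₁ N) x) ^ 2 +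
        2 * (1 / (m : ℝ)) ^ 2 * mb1 (Iq q N) (Kd A₁ N) x ^ 2 := by
    filter_upwards [hbd] with x hx
    have b1 := h3 m (by omega) (Qp q N) x hx
    have b2 : (Sq i (Qp q N) m x - Sp i (Qp q N) m x) ^ 2 ≤ (1 / (m : ℝ)) ^ 2 := by
      rw [← sq_abs, abs_sub_comm]
      exact pow_le_pow_left₀ (abs_nonneg _) b1 2
    have b3 := mul_le_mul_of_nonneg_right b2 (sq_nonneg (mb1 (Iq q N) (Kd A₁ N) x))
    have b4 := sq_nonneg (Sp i (Qp q N) m x * mb1 (Iq q N) (Kd A₁ N) x -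
      (Sq i (Qp q N) m x - Sp i (Qp q N) m x) * mb1 (Iq q N) (Kd A₁ N) x)
    have b5 : Sq i (Qp q N) m x * mb1 (Iq q N) (Kd A₁ N) x =
      Sp i (Qp q N) m x * mb1 (Iq q N) (Kd A₁ N) x +
        (Sq i (Qp q N) m x - Sp i (Qp q N) m x) * mb1 (Iq q N) (Kd A₁ N) x := by ring
    rw [b5]
    nlinarith
  have hIg := (k2.const_mul 2).add (hMi.const_mul (2 * (1 / (m : ℝ)) ^ 2))
  refine ⟨hIg.mono' (((sq_meas i _ _).mul hMeas).pow_const 2).aestronglyMeasurable ?_, ?_⟩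
  · filter_upwards [hae] with x hx
    rw [Real.norm_eq_abs, abs_of_nonneg (sq_nonneg _)]
    exact hx
  · have c1 := integral_mono_of_nonneg (Eventually.of_forall fun x => sq_nonneg _) hIg hae
    simp only [Pi.add_apply] at c1
    rw [integral_add (k2.const_mul 2) (hMi.const_mul _), integral_const_mul,
      integral_const_mul] at c1
    have c2 : 2 * (1 / (m : ℝ)) ^ 2 * ∫ x, mb1 (Iq q N) (Kd A₁ N) x ^ 2 ∂P ≤ 2 * Cm := by
      have d1 : ∫ x, mb1 (Iq q N) (Kd A₁ N) x ^ 2 ∂P ≤ Cm * (m : ℝ) := by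
        refine hMb.trans (mul_le_mul_of_nonneg_left ((h4 N n4).trans ?_) (by linarith))
        exact_mod_cast hmN
      have d2 : (1 : ℝ) ≤ m := by exact_mod_cast (by omega : 1 ≤ m)
      calc 2 * (1 / (m : ℝ)) ^ 2 * ∫ x, mb1 (Iq q N) (Kd A₁ N) x ^ 2 ∂P
          ≤ 2 * (1 / (m : ℝ)) ^ 2 * (Cm * (m : ℝ)) := mul_le_mul_of_nonneg_left d1 (by positivity)
        _ = 2 * Cm * (1 / (m : ℝ)) := by field_simp
        _ ≤ 2 * Cm * 1 := by
            refine mul_le_mul_of_nonneg_left ?_ (by positivity)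
            rw [div_le_one hm0]
            exact d2
        _ = _ := mul_one _
    have c3 : Real.log m ^ (2 * i) = l * l := by rw [hl, two_mul, pow_add]
    rw [c3, ← he]
    have c4 : 2 * Cm ≤ 2 * Cm * (l * l) * e := by
      have : 1 ≤ l * l * e := by
        calc (1 : ℝ) = 1 * 1 * 1 := by norm_num
          _ ≤ l * l * e := by gcongr
      nlinarith
    calc ∫ x, (Sq i (Qp q N) m x * mb1 (Iq q N) (Kd A₁ N) x) ^ 2 ∂P
        ≤ 2 * (Ca * l * W * (Ca * Cm * l * e * W)) + 2 * Cm := by linarith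
      _ ≤ 2 * (Ca * l * W * (Ca * Cm * l * e * W)) + 2 * Cm * (l * l) * e := by linarith
      _ = _ := by ring

end Pool.Agent.TU
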