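import Pool.Agent.Lib_helper84.TU.HBq
import Pool.Agent.Lib_helper84.TU.FB
import Pool.Agent.Lib_helper41.LVBF.BLE
import Pool.Agent.Lib_helper41.LVBF.SPL
import Pool.Agent.Lib_helper41.LVBF.PSA
import Pool.Agent.Lib_helper41.LVBF.PSD
import Pool.Agent.Lib_helper41.LVBF.ELM
import Pool.Agent.Lib_helper41.LVBF.MMN

/-! T12 III, block MO: the mollified Euler product in the model, one block -/

set_option autoImplicit false

namespace Pool.Agent.TU

open Pool.Agent.LEV Pool.Agent.LVB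
open Complex MeasureTheory Filter Topology ProbabilityTheory

theorem mo_mol (I : Finset ℕ) (K : ℕ) (x : ℕ → ℝ) :
    mol 1 (fun _ => I) (fun _ => K) x = mb1 I K x := by
  unfold mol
  simp

/-- one block inside `Q` -/
theorem mo_split {Q I : Finset ℕ} (hQ : ∀ p ∈ Q, p.Prime) {P : Measure (ℕ → ℝ)} (hP : IsST Q P)
    (hI : I ⊆ Q) (K : ℕ) {a : ℕ → ℂ} (ha : ∀ p ∈ Q, ‖a p‖ ≤ 1) :
    Integrable (fun x => mb1 I K x ^ 2 * ‖∏ p ∈ Q, el p (a p) (x p)‖ ^ 2) P ∧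
    ∫ x, mb1 I K x ^ 2 * ‖∏ p ∈ Q, el p (a p) (x p)‖ ^ 2 ∂P =
      (∏ p ∈ Q \ I, (1 - ‖a p‖ ^ 2 / p)⁻¹) *
        ∫ x, mb1 I K x ^ 2 * ‖∏ p ∈ I, el p (a p) (x p)‖ ^ 2 ∂P := by
  have h := mol_split_pr hQ hP (J := 1) (B := fun _ => I) (fun _ _ => hI)
    (fun i hi j hj hij => absurd (by omega : i = j) hij) (fun _ => K) ha
  have e1 : (Finset.range 1).biUnion (fun _ : ℕ => I) = I := by simp
  rw [e1] at h
  simp only [mo_mol, Finset.prod_range_one] at h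
  exact ⟨h.2.1, h.2.2.2⟩

theorem mo_inv {p : ℕ} (hp : p.Prime) {a : ℂ} (ha : ‖a‖ ≤ 1) :
    0 < (1 - ‖a‖ ^ 2 / p)⁻¹ ∧ (1 - ‖a‖ ^ 2 / p)⁻¹ ≤ Real.exp (2 * (1 / p)) := by
  have hp2 : (2 : ℝ) ≤ p := by exact_mod_cast hp.two_le
  have hp0 : (0 : ℝ) < p := by linarith
  have h1 : ‖a‖ ^ 2 ≤ 1 := by nlinarith [norm_nonneg a]
  obtain ⟨u, hu⟩ : ∃ u : ℝ, u = 1 / p := ⟨_, rfl⟩
  have hu0 : 0 < u := by rw [hu]; positivity
  have hu1 : u ≤ 1 / 2 := by
    rw [hu]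
    exact one_div_le_one_div_of_le (by norm_num) hp2
  have h2 : ‖a‖ ^ 2 / p ≤ u := by
    rw [hu]
    exact div_le_div_of_nonneg_right h1 hp0.le
  have h3 : 0 < 1 - ‖a‖ ^ 2 / p := by linarith
  refine ⟨inv_pos.2 h3, ?_⟩
  rw [← hu]
  rw [inv_le_comm₀ h3 (Real.exp_pos _), ← Real.exp_neg]
  have h4 : Real.exp (-(2 * u)) ≤ 1 - u := by
    rw [Real.exp_neg, inv_le_comm₀ (Real.exp_pos _) (by linarith)]
    have h5 := Real.add_one_le_exp (2 * u)
    refine le_trans ?_ h5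
    rw [inv_le_comm₀ (by linarith) (by linarith)]
    rw [inv_eq_one_div, div_le_iff₀ (by linarith)]
    nlinarith
  linarith

theorem mo_block : ∃ (A₁ : ℕ) (C : ℝ) (N₀ : ℕ), 3 ≤ N₀ ∧ 1 ≤ A₁ ∧ 1 ≤ C ∧ ∀ N : ℕ, N₀ ≤ N →
    ∀ q : ℕ, 0 < q → (q : ℝ) ≤ N → ∀ P : Measure (ℕ → ℝ), IsST (Qp q N) P →
      (Integrable (fun x => mb1 (Iq q N) (Kd A₁ N) x ^ 2) P ∧
        ∫ x, mb1 (Iq q N) (Kd A₁ N) x ^ 2 ∂P ≤ C * Real.log N ^ 5) ∧
      ∀ T : ℝ, Integrable (fun x => mb1 (Iq q N) (Kd A₁ N) x ^ 2 *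
          ‖LQ (Qp q N) (mN q N) T x‖ ^ 2) P ∧
        ∫ x, mb1 (Iq q N) (Kd A₁ N) x ^ 2 * ‖LQ (Qp q N) (mN q N) T x‖ ^ 2 ∂P ≤
          C * Real.log (Real.log N) ^ 6 * (1 + |T|) ^ 8 := by
  obtain ⟨Cb, hCb1, hb⟩ := block_est
  obtain ⟨Cl, hCl⟩ := ps_large
  obtain ⟨z₀, hz₀⟩ := p32_sum_pr (δ := 1) one_pos
  obtain ⟨N1, h1⟩ := hbq
  obtain ⟨N2, h2⟩ := params
  -- the sum of `p^(-3/2)` over any set of primes
  have h32 : ∃ B : ℝ, 0 ≤ B ∧ ∀ I : Finset ℕ, (∀ p ∈ I, p.Prime) →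
      ∑ p ∈ I, (p : ℝ) ^ (-(3 / 2) : ℝ) ≤ B := by
    refine ⟨z₀ + 1 + 1, by positivity, fun I hI => ?_⟩
    rw [← Finset.sum_filter_add_sum_filter_not I (fun p => z₀ < p)]
    have a1 : ∑ p ∈ I.filter (fun p => z₀ < p), (p : ℝ) ^ (-(3 / 2) : ℝ) ≤ 1 :=
      hz₀ _ (fun p hp => (Finset.mem_filter.1 hp).2)
    have a2 : ∑ p ∈ I.filter (fun p => ¬ z₀ < p), (p : ℝ) ^ (-(3 / 2) : ℝ) ≤ z₀ + 1 := by
      calc ∑ p ∈ I.filter (fun p => ¬ z₀ < p), (p : ℝ) ^ (-(3 / 2) : ℝ)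
          ≤ ∑ _p ∈ Finset.range (z₀ + 1), (1 : ℝ) := by
            refine (Finset.sum_le_sum_of_subset_of_nonneg (t := (Finset.range (z₀ + 1)).filter
              Nat.Prime) (fun p hp => ?_) (fun _ _ _ => by positivity)).trans
              ((Finset.sum_le_sum fun p hp => ?_).trans
                (Finset.sum_le_sum_of_subset_of_nonneg (Finset.filter_subset _ _)
                  (fun _ _ _ => zero_le_one)))
            · rw [Finset.mem_filter] at hp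
              rw [Finset.mem_filter, Finset.mem_range]
              exact ⟨by omega, hI p hp.1⟩
            · rw [Finset.mem_filter] at hp
              refine Real.rpow_le_one_of_one_le_of_nonpos ?_ (by norm_num)
              exact_mod_cast hp.2.one_lt.le
        _ = z₀ + 1 := by simp
    linarith
  obtain ⟨B, hB0, hB⟩ := h32
  obtain ⟨E, hE⟩ : ∃ E, E = Real.exp (4 * |Cl| + Cb * B + 4) := ⟨_, rfl⟩
  have hE1 : 1 ≤ E := by
    rw [hE]
    apply Real.one_le_exp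
    positivity
  refine ⟨⌈Cb⌉₊ + 1, 2 ^ 8 * E, max (max N1 N2) 3, le_max_right _ _, by omega, by linarith,
    fun N hN q hq hqN P hP => ?_⟩
  have n1 : N1 ≤ N := (le_max_left _ _).trans ((le_max_left _ _).trans hN)
  have n2 : N2 ≤ N := (le_max_right _ _).trans ((le_max_left _ _).trans hN)
  have n3 : 3 ≤ N := (le_max_right _ _).trans hN
  obtain ⟨g1, g2, g3, g4, g5, g6⟩ := h1 N n1 q hq hqN
  obtain ⟨p1, -⟩ := h2 N n2
  obtain ⟨A₁, hA₁⟩ : ∃ A₁, A₁ = ⌈Cb⌉₊ + 1 := ⟨_, rfl⟩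
  rw [← hA₁]
  obtain ⟨I, hI⟩ : ∃ I, I = Iq q N := ⟨_, rfl⟩
  obtain ⟨Q, hQd⟩ : ∃ Q, Q = Qp q N := ⟨_, rfl⟩
  obtain ⟨K, hK⟩ : ∃ K, K = Kd A₁ N := ⟨_, rfl⟩
  rw [← hI, ← hQd] at g2
  rw [← hI] at g3
  rw [← hI, ← hQd] at g5
  rw [← hQd] at g1 hP
  rw [← hI, ← hQd, ← hK]
  have hprob := hP.prob
  have hQp : ∀ p ∈ Q, p.Prime := fun p hp => (g1 p hp).1
  have hIp : ∀ p ∈ I, p.Prime := fun p hp => hQp p (g2 hp)
  have hPI : IsST I P := st_sub g2 hP
  have hHB0 : 0 ≤ HB I := by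
    unfold HB
    exact Finset.sum_nonneg fun _ _ => by positivity
  have hKC : Cb * HB I ≤ K := by
    rw [hK, Kd]
    push_cast
    have a1 : Cb ≤ A₁ := by
      rw [hA₁]
      push_cast
      linarith [Nat.le_ceil Cb]
    have a2 : HB I ≤ (⌈Real.log (Real.log N)⌉₊ : ℝ) := g3.trans (Nat.le_ceil _)
    exact mul_le_mul a1 a2 hHB0 (by positivity)
  have hexpK : 4 * Real.exp (-(K : ℝ)) ≤ 4 := by
    have : Real.exp (-(K : ℝ)) ≤ 1 := by
      rw [Real.exp_le_one_iff]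
      have : (0 : ℝ) ≤ K := by positivity
      linarith
    linarith
  have hCB : Cb * ∑ p ∈ I, (p : ℝ) ^ (-(3 / 2) : ℝ) ≤ Cb * B :=
    mul_le_mul_of_nonneg_left (hB I hIp) (by linarith)
  have hll : 1 ≤ Real.log (Real.log N) := by linarith
  have hlN0 : 0 < Real.log N := by
    by_contra h
    have h0 : Real.log N = 0 := le_antisymm (not_lt.1 h)
      (Real.log_nonneg (by exact_mod_cast (by omega : 1 ≤ N)))
    rw [h0, Real.log_zero] at hll
    linarith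
  have hlN : 1 ≤ Real.log N := by
    have := Real.add_one_le_exp (Real.log (Real.log N))
    rw [Real.exp_log hlN0] at this
    linarith
  have hmN : N ≤ mN q N := by
    unfold mN
    exact Nat.le_mul_of_pos_right _ (by positivity)
  have hm3 : 3 ≤ mN q N := n3.trans hmN
  refine ⟨?_, fun T => ?_⟩
  · -- the square of the mollifier
    have e0 : ∀ x : ℕ → ℝ, ∏ p ∈ I, el p (0 : ℂ) (x p) = 1 := by
      intro x
      refine Finset.prod_eq_one fun p _ => ?_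
      simp [el]
    have f1 := mo_split hIp hPI (Finset.Subset.refl I) K (a := fun _ => 0) (fun p _ => by simp)
    have f2 := (hb I hIp P hPI (fun _ => 0) (fun p _ => by simp) K hKC).2
    simp only [e0, norm_one, one_pow, mul_one] at f1 f2
    refine ⟨f1.1, f2.trans ?_⟩
    have e1 : ∑ p ∈ I, ‖(1 : ℂ) - 0‖ / p = HB I := by
      unfold HB
      simp
    rw [e1]
    calc Real.exp (4 * HB I + Cb * ∑ p ∈ I, (p : ℝ) ^ (-(3 / 2) : ℝ) + 4 * Real.exp (-(K : ℝ)))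
        ≤ Real.exp (4 * Real.log (Real.log N) + (4 * |Cl| + Cb * B + 4)) := by
          apply Real.exp_le_exp.2
          have := abs_nonneg Cl
          linarith
      _ = Real.log N ^ 4 * E := by
          rw [Real.exp_add, hE]
          congr 1
          rw [show (4 : ℝ) * Real.log (Real.log N) = ((4 : ℕ) : ℝ) * Real.log (Real.log N) by
            norm_num, Real.exp_nat_mul, Real.exp_log hlN0]
      _ ≤ Real.log N ^ 5 * (2 ^ 8 * E) := by
          refine mul_le_mul (pow_le_pow_right₀ hlN (by norm_num)) (by linarith) (by linarith)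
            (by positivity)
      _ = _ := by ring
  · -- with the Euler product
    have ha : ∀ p ∈ Q, ‖(p : ℂ) ^ (-(sT (mN q N) T))‖ ≤ 1 := fun p hp =>
      ps_norm_pr hm3 T (hQp p hp).one_lt.le
    obtain ⟨f1, f2⟩ := mo_split hQp hP g2 K ha
    have f3 := (hb I hIp P hPI (fun p => (p : ℂ) ^ (-(sT (mN q N) T)))
      (fun p hp => ha p (g2 hp)) K hKC).2
    have eL : ∀ x : ℕ → ℝ, LQ Q (mN q N) T x = ∏ p ∈ Q, el p ((p : ℂ) ^ (-(sT (mN q N) T))) (x p) :=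
      fun x => rfl
    simp only [eL]
    refine ⟨f1, ?_⟩
    rw [f2]
    have hT := abs_nonneg T
    -- the product
    have g7 : ∏ p ∈ Q \ I, (1 - ‖(p : ℂ) ^ (-(sT (mN q N) T))‖ ^ 2 / p)⁻¹ ≤
        Real.log (Real.log N) ^ 6 := by
      calc ∏ p ∈ Q \ I, (1 - ‖(p : ℂ) ^ (-(sT (mN q N) T))‖ ^ 2 / p)⁻¹
          ≤ ∏ p ∈ Q \ I, Real.exp (2 * (1 / p)) := by
            refine Finset.prod_le_prod (fun p hp => ?_) (fun p hp => ?_)
            · exact (mo_inv (hQp p (Finset.mem_sdiff.1 hp).1)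
                (ha p (Finset.mem_sdiff.1 hp).1)).1.le
            · exact (mo_inv (hQp p (Finset.mem_sdiff.1 hp).1)
                (ha p (Finset.mem_sdiff.1 hp).1)).2
        _ = Real.exp (2 * ∑ p ∈ Q \ I, 1 / (p : ℝ)) := by
            rw [← Real.exp_sum, Finset.mul_sum]
        _ ≤ Real.exp (((6 : ℕ) : ℝ) * Real.log (Real.log (Real.log N))) := by
            apply Real.exp_le_exp.2
            push_cast
            linarith
        _ = Real.log (Real.log N) ^ 6 := by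
            rw [Real.exp_nat_mul, Real.exp_log (by linarith)]
    have g8 : 0 ≤ ∏ p ∈ Q \ I, (1 - ‖(p : ℂ) ^ (-(sT (mN q N) T))‖ ^ 2 / p)⁻¹ :=
      Finset.prod_nonneg fun p hp => (mo_inv (hQp p (Finset.mem_sdiff.1 hp).1)
        (ha p (Finset.mem_sdiff.1 hp).1)).1.le
    -- the block
    have g9 : ∑ p ∈ I, ‖1 - (p : ℂ) ^ (-(sT (mN q N) T))‖ / p ≤
        2 * Real.log (2 + |T|) + Cl := by
      refine le_trans (Finset.sum_le_sum_of_subset_of_nonneg (fun p hp => ?_)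
        (fun _ _ _ => by positivity)) (hCl (mN q N) hm3 T)
      have := g1 p (g2 hp)
      rw [Pr, Finset.mem_filter, Finset.mem_range]
      exact ⟨lt_of_lt_of_le this.2 hmN, this.1⟩
    have g10 : ∫ x, mb1 I K x ^ 2 * ‖∏ p ∈ I, el p ((p : ℂ) ^ (-(sT (mN q N) T))) (x p)‖ ^ 2 ∂P ≤
        (2 + |T|) ^ 8 * E := by
      refine f3.trans ?_
      calc Real.exp (4 * ∑ p ∈ I, ‖1 - (p : ℂ) ^ (-(sT (mN q N) T))‖ / p +
            Cb * ∑ p ∈ I, (p : ℝ) ^ (-(3 / 2) : ℝ) + 4 * Real.exp (-(K : ℝ)))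
          ≤ Real.exp (((8 : ℕ) : ℝ) * Real.log (2 + |T|) + (4 * |Cl| + Cb * B + 4)) := by
            apply Real.exp_le_exp.2
            push_cast
            have := le_abs_self Cl
            linarith
        _ = (2 + |T|) ^ 8 * E := by
            rw [Real.exp_add, hE, Real.exp_nat_mul, Real.exp_log (by positivity)]
    have g11 : (2 + |T|) ^ 8 ≤ 2 ^ 8 * (1 + |T|) ^ 8 := by
      rw [← mul_pow]
      exact pow_le_pow_left₀ (by positivity) (by linarith) 8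
    calc (∏ p ∈ Q \ I, (1 - ‖(p : ℂ) ^ (-(sT (mN q N) T))‖ ^ 2 / p)⁻¹) *
          ∫ x, mb1 I K x ^ 2 * ‖∏ p ∈ I, el p ((p : ℂ) ^ (-(sT (mN q N) T))) (x p)‖ ^ 2 ∂P
        ≤ Real.log (Real.log N) ^ 6 * ((2 + |T|) ^ 8 * E) := by
          refine mul_le_mul g7 g10 (integral_nonneg fun x => by positivity) (by positivity)
      _ ≤ Real.log (Real.log N) ^ 6 * (2 ^ 8 * (1 + |T|) ^ 8 * E) := by
          refine mul_le_mul_of_nonneg_left (mul_le_mul_of_nonneg_right g11 (by linarith))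
            (by positivity)
      _ = _ := by ring

end Pool.Agent.TU
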