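import Pool.Agent.Lib_helper84.TU.HT
import Pool.Agent.Lib_helper41.LVBF.HPM
import Pool.Agent.Lib_helper41.LVBF.EXT

/-! T12 III, block UA: the length of the mollified polynomial and the size of the mollifier -/

set_option autoImplicit false

namespace Pool.Agent.TU

open Pool.Agent.LEV Pool.Agent.LVB
open Pool.Agent.LK (PQ V)
open Pool.Agent.LX (dl)
open Complex MeasureTheory Filter Topology ProbabilityTheory

theorem sq_hpoly (i : ℕ) (Q : Finset ℕ) (m : ℕ) : HPoly Q (X0 m) (Sq i Q m) := by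
  classical
  refine ⟨fun n => if n ∈ (Finset.Icc 1 (X0 m)).filter (fun n => n.primeFactors ⊆ Q) then
    wi i m n / Real.sqrt n else 0, fun n hn => ?_, fun x => ?_⟩
  · have h1 : n ∈ (Finset.Icc 1 (X0 m)).filter (fun n => n.primeFactors ⊆ Q) := by
      by_contra h
      exact hn (if_neg h)
    rw [Finset.mem_filter, Finset.mem_Icc] at h1
    exact ⟨h1.1.1, h1.1.2, h1.2⟩
  · unfold Sq
    rw [Finset.sum_filter]
    refine Finset.sum_congr rfl fun n hn => ?_
    by_cases h : n.primeFactors ⊆ Q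
    · have h3 : n ∈ (Finset.Icc 1 (X0 m)).filter (fun n => n.primeFactors ⊆ Q) :=
        Finset.mem_filter.2 ⟨hn, h⟩
      simp only [if_pos h, if_pos h3]
    · have h3 : n ∉ (Finset.Icc 1 (X0 m)).filter (fun n => n.primeFactors ⊆ Q) :=
        fun h2 => h (Finset.mem_filter.1 h2).2
      simp only [if_neg h, if_neg h3, zero_mul]

/-- the length of the mollified polynomial -/
theorem uh_poly (A₁ i : ℕ) : ∃ N₀ : ℕ, ∀ N : ℕ, N₀ ≤ N → ∀ q : ℕ, 0 < q → (q : ℝ) ≤ (N : ℝ) ^ dl →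
    ∃ X : ℕ, 1 ≤ X ∧ 4 * X ≤ N ∧ HPoly (Qp q N) X
      (fun x => Sq i (Qp q N) (mN q N) x * mb1 (Iq q N) (Kd A₁ N) x) := by
  obtain ⟨N1, h1⟩ := params
  obtain ⟨N2, h2⟩ := hbq
  have h3 := LEN_logs.eventually_ge_atTop (40 * (A₁ : ℝ) + 1)
  obtain ⟨N3, h3⟩ := Filter.eventually_atTop.1 h3
  refine ⟨max (max N1 N2) (max N3 1024), fun N hN q hq0 hq => ?_⟩
  have n1 : N1 ≤ N := (le_max_left _ _).trans ((le_max_left _ _).trans hN)
  have n2 : N2 ≤ N := (le_max_right _ _).trans ((le_max_left _ _).trans hN)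
  have n3 : N3 ≤ N := (le_max_left _ _).trans ((le_max_right _ _).trans hN)
  have n4 : 1024 ≤ N := (le_max_right _ _).trans ((le_max_right _ _).trans hN)
  have hN1 : (1 : ℝ) ≤ N := by exact_mod_cast (by omega : 1 ≤ N)
  have hN0 : (0 : ℝ) < N := by linarith
  have hqN : (q : ℝ) ≤ N := by
    refine hq.trans ?_
    conv_rhs => rw [← Real.rpow_one (N : ℝ)]
    refine Real.rpow_le_rpow_of_exponent_le hN1 ?_
    unfold dl
    norm_num
  obtain ⟨hQ, hIQ, -, -, -, -⟩ := h2 N n2 q hq0 hqN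
  have hl := h3 N n3
  obtain ⟨Z, hZ⟩ : ∃ Z, Z = ⌊zN N⌋₊ := ⟨_, rfl⟩
  have hz0 : 0 < zN N := Real.exp_pos _
  have hlog : 0 ≤ Real.log (N : ℝ) := Real.log_nonneg hN1
  have hz1 : 1 ≤ zN N := by
    unfold zN
    apply Real.one_le_exp
    positivity
  have hZ1 : 1 ≤ Z := by
    rw [hZ]
    exact Nat.le_floor (by exact_mod_cast hz1)
  have hZr : (Z : ℝ) ≤ zN N := by
    rw [hZ]
    exact Nat.floor_le hz0.le
  have hIZ : ∀ p ∈ Iq q N, p ≤ Z := by
    intro p hp
    rw [hZ]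
    exact (Finset.mem_Icc.1 (Finset.mem_filter.1 (Finset.mem_filter.1 hp).1).1).2
  have hIp : ∀ p ∈ Iq q N, p.Prime := fun p hp => (hQ p (hIQ hp)).1
  have hQp : ∀ p ∈ Qp q N, p.Prime := fun p hp => (hQ p hp).1
  have hA := hpoly_ex hIp hZ1 hIZ (Kd A₁ N)
  have hB := sq_hpoly i (Qp q N) (mN q N)
  have hC := hpoly_mul hQp hIp hB hA
  rw [Finset.union_eq_left.2 hIQ] at hC
  refine ⟨_, ?_, ?_, hC⟩
  · refine Nat.mul_pos ?_ (Nat.pow_pos hZ1)
    unfold X0
    refine Nat.le_floor ?_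
    have hm : (1 : ℝ) ≤ (mN q N : ℕ) := by
      unfold mN
      exact_mod_cast Nat.mul_pos (by omega) (Nat.pow_pos hq0)
    exact_mod_cast Real.one_le_rpow hm (by norm_num)
  · -- the size
    have hX : (X0 (mN q N) : ℝ) ≤ (N : ℝ) ^ (7 / 10 : ℝ) := by
      unfold X0
      refine (Nat.floor_le (by positivity)).trans ?_
      have e1 : ((mN q N : ℕ) : ℝ) ≤ (N : ℝ) ^ (1 + 2 * dl) := by
        unfold mN
        push_cast
        rw [Real.rpow_add hN0, Real.rpow_one]
        refine mul_le_mul_of_nonneg_left ?_ hN0.le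
        rw [show (2 * dl : ℝ) = dl * 2 by ring, Real.rpow_mul hN0.le]
        rw [show (((N : ℝ) ^ dl) ^ (2 : ℝ)) = ((N : ℝ) ^ dl) ^ (2 : ℕ) by
          rw [← Real.rpow_natCast]; norm_num]
        exact pow_le_pow_left₀ (Nat.cast_nonneg q) hq 2
      refine (Real.rpow_le_rpow (Nat.cast_nonneg _) e1 (by norm_num)).trans ?_
      rw [← Real.rpow_mul hN0.le]
      refine Real.rpow_le_rpow_of_exponent_le hN1 ?_
      unfold dl
      norm_num
    have hK : ((Z ^ (2 * Kd A₁ N) : ℕ) : ℝ) ≤ (N : ℝ) ^ (1 / 10 : ℝ) := by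
      push_cast
      refine (pow_le_pow_left₀ (Nat.cast_nonneg _) hZr _).trans ?_
      unfold zN
      rw [← Real.exp_nat_mul, Real.rpow_def_of_pos hN0]
      refine Real.exp_le_exp.2 ?_
      have hl0 : 0 < Real.log (Real.log (N : ℝ)) := by
        have : (0 : ℝ) ≤ A₁ := Nat.cast_nonneg _
        linarith
      have hl1 : 1 ≤ Real.log (Real.log (N : ℝ)) := by
        have : (0 : ℝ) ≤ A₁ := Nat.cast_nonneg _
        linarith
      have hc : (⌈Real.log (Real.log (N : ℝ))⌉₊ : ℝ) ≤ Real.log (Real.log (N : ℝ)) + 1 :=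
        (Nat.ceil_lt_add_one hl0.le).le
      have hK1 : ((2 * Kd A₁ N : ℕ) : ℝ) ≤ 4 * A₁ * Real.log (Real.log (N : ℝ)) := by
        unfold Kd
        push_cast
        have : (A₁ : ℝ) * ⌈Real.log (Real.log (N : ℝ))⌉₊ ≤
            A₁ * (2 * Real.log (Real.log (N : ℝ))) :=
          mul_le_mul_of_nonneg_left (by linarith) (Nat.cast_nonneg _)
        linarith
      rw [mul_div_assoc', div_le_iff₀ (by positivity)]
      have hA0 : (0 : ℝ) ≤ A₁ := Nat.cast_nonneg _
      calc ((2 * Kd A₁ N : ℕ) : ℝ) * Real.log N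
          ≤ (4 * A₁ * Real.log (Real.log (N : ℝ))) * Real.log N :=
            mul_le_mul_of_nonneg_right hK1 hlog
        _ = Real.log N * (1 / 10) * (40 * A₁ * Real.log (Real.log (N : ℝ))) := by ring
        _ ≤ Real.log N * (1 / 10) * Real.log (Real.log (N : ℝ)) ^ 2 := by
            refine mul_le_mul_of_nonneg_left ?_ (by positivity)
            rw [sq]
            exact mul_le_mul_of_nonneg_right (by linarith) hl0.le
    have hfin : (4 : ℝ) * ((X0 (mN q N) * Z ^ (2 * Kd A₁ N) : ℕ) : ℝ) ≤ N := by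
      rw [Nat.cast_mul]
      have e2 : (X0 (mN q N) : ℝ) * ((Z ^ (2 * Kd A₁ N) : ℕ) : ℝ) ≤ (N : ℝ) ^ (4 / 5 : ℝ) := by
        refine (mul_le_mul hX hK (Nat.cast_nonneg _) (by positivity)).trans ?_
        rw [← Real.rpow_add hN0]
        norm_num
      have e3 : (4 : ℝ) ≤ (N : ℝ) ^ (1 / 5 : ℝ) := by
        have : (1024 : ℝ) ^ (1 / 5 : ℝ) ≤ (N : ℝ) ^ (1 / 5 : ℝ) :=
          Real.rpow_le_rpow (by norm_num) (by exact_mod_cast n4) (by norm_num)
        refine le_trans ?_ this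
        rw [show (1024 : ℝ) = 4 ^ (5 : ℝ) by norm_num, ← Real.rpow_mul (by norm_num)]
        norm_num
      have e4 : (N : ℝ) = (N : ℝ) ^ (1 / 5 : ℝ) * (N : ℝ) ^ (4 / 5 : ℝ) := by
        rw [← Real.rpow_add hN0]
        norm_num
      calc (4 : ℝ) * ((X0 (mN q N) : ℝ) * ((Z ^ (2 * Kd A₁ N) : ℕ) : ℝ))
          ≤ (N : ℝ) ^ (1 / 5 : ℝ) * (N : ℝ) ^ (4 / 5 : ℝ) :=
            mul_le_mul e3 e2 (by positivity) (by positivity)
        _ = N := e4.symm
    exact_mod_cast hfin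

section
variable {q : ℕ} [NeZero q] {χ : DirichletCharacter ℂ q}

/-- the sum over the primes which do not divide the conductor -/
theorem pb_px (hχ : PQ χ) {N : ℕ} (f : S2 N) : PB (Iq q N) (tx χ (la f)) = PX χ f := by
  unfold PB PX Iq tx
  rw [Finset.sum_filter]
  refine Finset.sum_congr rfl fun p hp => ?_
  have hpp : p.Prime := (Finset.mem_filter.1 hp).2.1
  by_cases h : p ∣ q
  · rw [if_neg (not_not.2 h), cr_zero hχ (n := p)]
    · simp
    · rw [hpp.coprime_iff_not_dvd]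
      exact not_not.2 h
  · rw [if_pos h]

end

/-- the size of the mollifier -/
theorem mol_size {L l H P : ℝ} {K : ℕ} (hL : L = Real.exp l) (hl : 1 ≤ l) (hK : l ≤ K)
    (hP : |P| ≤ 1 / 4 * l) (hH1 : H ≤ l) (hH2 : l - 4 * Real.log l ≤ H) :
    1 / 2 * Real.exp (l / 2) / l ^ 2 * Real.exp (-P) ≤ Real.exp (H / 2) * ex K (-P) ∧
    Real.exp (H / 2) * ex K (-P) ≤ L := by
  have hl0 : 0 < l := by linarith
  have h1 := ex_near K (-P)
  rw [abs_neg] at h1
  have h2 := ex_le K (-P)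
  rw [abs_neg] at h2
  have he : Real.exp 1 < 2.7182818286 := Real.exp_one_lt_d9
  constructor
  · have h3 : Real.exp (-(2 * K + 1)) * Real.exp (Real.exp 1 * |P|) ≤ 1 / 2 * Real.exp (-P) := by
      have h4 : Real.exp (-(2 * (K : ℝ) + 1)) * Real.exp (Real.exp 1 * |P|) ≤
          Real.exp (-1) * Real.exp (-P) := by
        rw [← Real.exp_add, ← Real.exp_add]
        refine Real.exp_le_exp.2 ?_
        have h5 : Real.exp 1 * |P| ≤ 3 * |P| :=
          mul_le_mul_of_nonneg_right (by linarith) (abs_nonneg P)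
        have h6 := le_abs_self P
        linarith
      refine h4.trans (mul_le_mul_of_nonneg_right ?_ (Real.exp_pos _).le)
      have h7 : (2 : ℝ) ≤ Real.exp 1 := by
        have := Real.add_one_le_exp (1 : ℝ)
        linarith
      rw [Real.exp_neg, one_div]
      exact inv_anti₀ (by norm_num) h7
    have h8 : 1 / 2 * Real.exp (-P) ≤ ex K (-P) := by
      have := (abs_le.1 h1).1
      linarith
    have h9 : Real.exp (l / 2) / l ^ 2 ≤ Real.exp (H / 2) := by
      have : Real.exp (l / 2) / l ^ 2 = Real.exp ((l - 4 * Real.log l) / 2) := by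
        rw [show (l - 4 * Real.log l) / 2 = l / 2 - Real.log l * 2 by ring, Real.exp_sub,
          Real.exp_mul, Real.exp_log hl0]
        norm_num
      rw [this]
      exact Real.exp_le_exp.2 (by linarith)
    calc 1 / 2 * Real.exp (l / 2) / l ^ 2 * Real.exp (-P)
        = (Real.exp (l / 2) / l ^ 2) * (1 / 2 * Real.exp (-P)) := by ring
      _ ≤ Real.exp (H / 2) * ex K (-P) := mul_le_mul h9 h8 (by positivity) (Real.exp_pos _).le
  · refine (mul_le_mul_of_nonneg_left h2 (Real.exp_pos _).le).trans ?_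
    rw [← Real.exp_add, hL]
    exact Real.exp_le_exp.2 (by linarith)

end Pool.Agent.TU
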