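import Pool.Agent.Lib_helper84.TU.UA
import Pool.Agent.Lib_helper14.TU.FT
import Pool.Agent.Lib_helper41.LVBF.HPQ
import Pool.Agent.Lib_helper41.LVBF.STE

/-! T12 III, block UH: the upper bound for the smooth twists, with harmonic weights -/

set_option autoImplicit false

namespace Pool.Agent.TU

open Pool.Agent.LEV Pool.Agent.LVB
open Pool.Agent.LK (PQ V)
open Pool.Agent.LX (dl)
open Complex MeasureTheory Filter Topology ProbabilityTheory

/-- the exceptional forms -/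
def Bad {q : ℕ} [NeZero q] (χ : DirichletCharacter ℂ q) (i : ℕ) (ε : ℝ) {N : ℕ} (f : S2 N) : Prop :=
  Real.log N ^ ((i : ℝ) - 1 / 2) * Real.exp (PX χ f + ε * Real.sqrt (Real.log (Real.log N))) <
    |ui χ i f| ∨ ε * Real.log (Real.log N) < |PX χ f|

/-- the four error terms tend to zero -/
theorem uh_lim (C1 C2 C3 : ℝ) {ε δ : ℝ} (hε : 0 < ε) (hδ : 0 < δ) : ∃ N₀ : ℕ, ∀ N : ℕ, N₀ ≤ N →
    C1 * (Real.log (Real.log N) ^ 10 * Real.exp (-(2 * ε * Real.sqrt (Real.log (Real.log N))))) +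
      C2 * (Real.log N ^ 6 / N) + C3 / Real.log (Real.log N) ≤ δ := by
  have h1 : Tendsto (fun x : ℝ => x ^ 20 * Real.exp (-(2 * ε * x))) atTop (𝓝 0) := by
    have := Real.tendsto_pow_mul_exp_neg_atTop_nhds_zero 20
    have h2 : Tendsto (fun x : ℝ => 2 * ε * x) atTop atTop :=
      tendsto_id.const_mul_atTop (by positivity)
    have h3 := (this.comp h2).const_mul (1 / (2 * ε) ^ 20)
    rw [mul_zero] at h3
    refine h3.congr fun x => ?_
    simp only [Function.comp]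
    rw [mul_pow]
    field_simp
  have hs : Tendsto (fun N : ℕ => Real.sqrt (Real.log (Real.log N))) atTop atTop :=
    Real.tendsto_sqrt_atTop.comp LEN_logs
  have h4 : Tendsto (fun N : ℕ => Real.log (Real.log N) ^ 10 *
      Real.exp (-(2 * ε * Real.sqrt (Real.log (Real.log N))))) atTop (𝓝 0) := by
    refine (h1.comp hs).congr' ?_
    filter_upwards [LEN_logs.eventually_ge_atTop 0] with N hN
    simp only [Function.comp]
    rw [show (20 : ℕ) = 2 * 10 by norm_num, pow_mul, Real.sq_sqrt hN]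
  have h5 : Tendsto (fun N : ℕ => Real.log N ^ 6 / (N : ℝ)) atTop (𝓝 0) := by
    have h := (Real.isLittleO_pow_log_id_atTop (n := 6)).tendsto_div_nhds_zero
    exact h.comp tendsto_natCast_atTop_atTop
  have h6 : Tendsto (fun N : ℕ => C3 / Real.log (Real.log (N : ℝ))) atTop (𝓝 0) :=
    tendsto_const_nhds.div_atTop LEN_logs
  have h7 := ((h4.const_mul C1).add (h5.const_mul C2)).add h6
  rw [mul_zero, mul_zero, add_zero, add_zero] at h7
  exact Filter.eventually_atTop.1 (h7.eventually_le_const hδ)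

/-- an exceptional form makes one of the four terms large -/
theorem uh_case {L l e e' τ M S S0 u r P Lm B : ℝ} {i : ℕ} (hL : L = Real.exp l) (hl : 1 ≤ l)
    (he : 0 < e') (hee : e' ≤ e) (hτ : τ = 1 / 2 * L ^ i / l ^ 2 * Real.exp (e * Real.sqrt l))
    (hM : |P| ≤ e' * l → 1 / 2 * Real.exp (l / 2) / l ^ 2 * Real.exp (-P) ≤ M ∧ M ≤ L)
    (hr : 0 ≤ r) (hu : |u| ≤ |S| + Lm ^ i * |S0| + r) (hLm : 0 ≤ Lm)
    (hB : B = L ^ ((i : ℝ) - 1 / 2) * Real.exp (P + e * Real.sqrt l))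
    (hbad : B < |u| ∨ e * l < |P|) :
    1 ≤ 9 / τ ^ 2 * (S * M) ^ 2 + 9 / τ ^ 2 * (Lm ^ i) ^ 2 * (S0 * M) ^ 2 +
      9 * L ^ 2 / τ ^ 2 * r ^ 2 + 1 / (e' * l) ^ 2 * P ^ 2 := by
  have hl0 : 0 < l := by linarith
  have hL0 : 0 < L := by rw [hL]; exact Real.exp_pos _
  have hτ0 : 0 < τ := by rw [hτ]; positivity
  have hLi : 0 ≤ Lm ^ i := pow_nonneg hLm i
  have t1 : 0 ≤ 9 / τ ^ 2 * (S * M) ^ 2 := by positivity
  have t2 : 0 ≤ 9 / τ ^ 2 * (Lm ^ i) ^ 2 * (S0 * M) ^ 2 := by positivity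
  have t3 : 0 ≤ 9 * L ^ 2 / τ ^ 2 * r ^ 2 := by positivity
  have t4 : 0 ≤ 1 / (e' * l) ^ 2 * P ^ 2 := by positivity
  by_cases hP : |P| ≤ e' * l
  · obtain ⟨hM1, hM2⟩ := hM hP
    have hb : B < |u| := by
      rcases hbad with h | h
      · exact h
      · exfalso
        have : e' * l ≤ e * l := mul_le_mul_of_nonneg_right hee hl0.le
        linarith
    have hM0 : 0 < M := lt_of_lt_of_le (by positivity) hM1
    have h1 : τ < M * |u| := by
      have h2 : τ = (1 / 2 * Real.exp (l / 2) / l ^ 2 * Real.exp (-P)) * B := by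
        rw [hτ, hB, hL]
        have e1 : Real.exp l ^ ((i : ℝ) - 1 / 2) = Real.exp l ^ i * Real.exp (-(l / 2)) := by
          rw [← Real.exp_mul, ← Real.exp_nat_mul, ← Real.exp_add]
          congr 1
          ring
        rw [e1, Real.exp_add, Real.exp_neg, Real.exp_neg]
        field_simp
      rw [h2]
      have hB0 : 0 ≤ B := by rw [hB]; positivity
      calc (1 / 2 * Real.exp (l / 2) / l ^ 2 * Real.exp (-P)) * B ≤ M * B :=
            mul_le_mul_of_nonneg_right hM1 hB0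
        _ < M * |u| := mul_lt_mul_of_pos_left hb hM0
    have h3 : τ < |S * M| + Lm ^ i * |S0 * M| + L * r := by
      rw [abs_mul, abs_mul, abs_of_pos hM0]
      have h4 : M * |u| ≤ M * (|S| + Lm ^ i * |S0| + r) := mul_le_mul_of_nonneg_left hu hM0.le
      have h5 : M * r ≤ L * r := mul_le_mul_of_nonneg_right hM2 hr
      nlinarith
    have h6 : τ / 3 < |S * M| ∨ τ / 3 < Lm ^ i * |S0 * M| ∨ τ / 3 < L * r := by
      by_contra hcon
      push Not at hcon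
      obtain ⟨c1, c2, c3⟩ := hcon
      linarith
    have key : ∀ y : ℝ, τ / 3 < y → 1 ≤ 9 / τ ^ 2 * y ^ 2 := by
      intro y hy
      have h7 : (τ / 3) ^ 2 ≤ y ^ 2 := pow_le_pow_left₀ (by positivity) hy.le 2
      rw [div_mul_eq_mul_div, le_div_iff₀ (by positivity)]
      nlinarith
    rcases h6 with h6 | h6 | h6
    · have := key _ h6
      rw [sq_abs] at this
      linarith
    · have := key _ h6
      rw [mul_pow, sq_abs, ← mul_assoc] at this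
      linarith
    · have := key _ h6
      rw [mul_pow, ← mul_assoc, div_mul_eq_mul_div] at this
      linarith
  · push Not at hP
    have h8 : 1 ≤ 1 / (e' * l) ^ 2 * P ^ 2 := by
      rw [← sq_abs P, div_mul_eq_mul_div, one_mul, le_div_iff₀ (by positivity), one_mul]
      exact pow_le_pow_left₀ (by positivity) hP.le 2
    linarith

theorem ub_harm (i : ℕ) {ε : ℝ} (hε : 0 < ε) : ∃ N₀ : ℕ, ∀ (N : ℕ) [Fact N.Prime], N₀ ≤ N →
    ∀ (q : ℕ) [NeZero q] (χ : DirichletCharacter ℂ q), PQ χ → (q : ℝ) ≤ (N : ℝ) ^ dl → Sgn χ N i →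
    ∀ {ι : Type} [Fintype ι] (f : ι → S2 N), Function.Injective f →
    (∀ j, IsNew (f j) ∧ co (f j) N = 1) → ∀ s : Finset ι, (∀ j ∈ s, Bad χ i ε (f j)) →
    ∑ j ∈ s, om (f j) ≤ ε := by
  obtain ⟨A₁, hA1, hmm⟩ := mm_bound
  obtain ⟨Ci, Ni, hCi, -, hmi⟩ := hmm i
  obtain ⟨C0, N0, hC0, -, hm0⟩ := hmm 0
  obtain ⟨P1, hP1⟩ := uh_poly A₁ i
  obtain ⟨P0, hP0⟩ := uh_poly A₁ 0
  obtain ⟨F, hF⟩ := ui_harm i
  obtain ⟨X1, hX1⟩ := px_sq
  obtain ⟨H1, hH1⟩ := hbq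
  obtain ⟨e', he'⟩ : ∃ e', e' = min ε (1 / 4) := ⟨_, rfl⟩
  have he0 : 0 < e' := by rw [he']; exact lt_min hε (by norm_num)
  have he1 : e' ≤ ε := by rw [he']; exact min_le_left _ _
  have he2 : e' ≤ 1 / 4 := by rw [he']; exact min_le_right _ _
  obtain ⟨E, hE⟩ : ∃ E, E = Real.exp (4 * Real.pi) := ⟨_, rfl⟩
  have hE0 : 0 < E := by rw [hE]; exact Real.exp_pos _
  obtain ⟨T1, hT1⟩ := uh_lim (36 * E * (Ci + C0) * 2 ^ (2 * i)) 36 (E / e' ^ 2) hε hε
  have hll := LEN_logs.eventually_ge_atTop (1 : ℝ)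
  obtain ⟨L1, hL1⟩ := Filter.eventually_atTop.1 hll
  refine ⟨max (max (max Ni N0) (max P1 P0)) (max (max F X1) (max H1 (max T1 (max L1 3)))),
    fun N _ hN q _ χ hχ hq hS ι _ f hi hnew s hs => ?_⟩
  have g1 : Ni ≤ N := by
    exact (le_max_left _ _).trans ((le_max_left _ _).trans ((le_max_left _ _).trans hN))
  have g2 : N0 ≤ N :=
    (le_max_right _ _).trans ((le_max_left _ _).trans ((le_max_left _ _).trans hN))
  have g3 : P1 ≤ N :=
    (le_max_left _ _).trans ((le_max_right _ _).trans ((le_max_left _ _).trans hN))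
  have g4 : P0 ≤ N :=
    (le_max_right _ _).trans ((le_max_right _ _).trans ((le_max_left _ _).trans hN))
  have g5 : F ≤ N :=
    (le_max_left _ _).trans ((le_max_left _ _).trans ((le_max_right _ _).trans hN))
  have g6 : X1 ≤ N :=
    (le_max_right _ _).trans ((le_max_left _ _).trans ((le_max_right _ _).trans hN))
  have g7 : max H1 (max T1 (max L1 3)) ≤ N :=
    (le_max_right _ _).trans ((le_max_right _ _).trans hN)
  have g8 : H1 ≤ N := (le_max_left _ _).trans g7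
  have g9 : max T1 (max L1 3) ≤ N := (le_max_right _ _).trans g7
  have g10 : T1 ≤ N := (le_max_left _ _).trans g9
  have g11 : L1 ≤ N := (le_max_left _ _).trans ((le_max_right _ _).trans g9)
  have g12 : 3 ≤ N := (le_max_right _ _).trans ((le_max_right _ _).trans g9)
  have hN1 : (1 : ℝ) ≤ N := by exact_mod_cast (by omega : 1 ≤ N)
  have hN0 : (0 : ℝ) < N := by linarith
  have hq0 : 0 < q := Nat.pos_of_ne_zero (NeZero.ne q)
  have hqN : (q : ℝ) ≤ N := by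
    refine hq.trans ?_
    conv_rhs => rw [← Real.rpow_one (N : ℝ)]
    refine Real.rpow_le_rpow_of_exponent_le hN1 ?_
    unfold dl
    norm_num
  obtain ⟨hQ, hIQ, hb1, hb2, -, -⟩ := hH1 N g8 q hq0 hqN
  have hQp : ∀ p ∈ Qp q N, p.Prime := fun p hp => (hQ p hp).1
  obtain ⟨P, hP⟩ := st_exists_pr (Qp q N) hQp
  obtain ⟨r, hr0, hr2, hr⟩ := hF N g5 q χ hχ hq hS f hi hnew
  have hn : ∀ j, IsNew (f j) := fun j => (hnew j).1
  have hom : ∀ j, 0 ≤ om (f j) := fun j => HPQ_om_nonneg (hn j)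
  -- the parameters
  obtain ⟨l, hl⟩ : ∃ l, l = Real.log (Real.log (N : ℝ)) := ⟨_, rfl⟩
  obtain ⟨L, hL⟩ : ∃ L, L = Real.log (N : ℝ) := ⟨_, rfl⟩
  have hl1 : 1 ≤ l := by rw [hl]; exact hL1 N g11
  have hL0 : 0 < L := by
    rw [hL]
    exact Real.log_pos (by exact_mod_cast (by omega : 1 < N))
  have hLe : L = Real.exp l := by rw [hl, ← hL, Real.exp_log hL0]
  have hLone : 1 ≤ L := by
    rw [hLe]
    exact Real.one_le_exp (by linarith)
  have hl0 : 0 < l := by linarith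
  have hlL : l ≤ L := by
    rw [hLe]
    have := Real.add_one_le_exp l
    linarith
  obtain ⟨Lm, hLm⟩ : ∃ Lm, Lm = Real.log (mN q N : ℕ) := ⟨_, rfl⟩
  have hLm2 : 0 ≤ Lm ∧ Lm ≤ 2 * L := by
    have e1 : Lm = L + 2 * Real.log q := by
      rw [hLm, hL]
      unfold mN
      push_cast
      rw [Real.log_mul (by positivity) (by positivity), Real.log_pow]
      push_cast
      ring
    have hq1 : (1 : ℝ) ≤ q := by exact_mod_cast hq0
    have e2 : 0 ≤ Real.log (q : ℝ) := Real.log_nonneg hq1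
    have e3 : Real.log (q : ℝ) ≤ dl * L := by
      rw [hL, ← Real.log_rpow hN0]
      exact Real.log_le_log (by linarith) hq
    have e4 : dl * L ≤ 1 / 2 * L := by
      refine mul_le_mul_of_nonneg_right ?_ hL0.le
      unfold dl
      norm_num
    constructor
    · rw [e1]; positivity
    · rw [e1]; linarith
  obtain ⟨τ, hτ⟩ : ∃ τ, τ = 1 / 2 * L ^ i / l ^ 2 * Real.exp (ε * Real.sqrt l) := ⟨_, rfl⟩
  have hτ0 : 0 < τ := by rw [hτ]; positivity
  obtain ⟨K, hK⟩ : ∃ K, K = Kd A₁ N := ⟨_, rfl⟩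
  have hKl : l ≤ K := by
    rw [hK, hl]
    unfold Kd
    push_cast
    have h1 := Nat.le_ceil (Real.log (Real.log (N : ℝ)))
    have h2 : (1 : ℝ) ≤ A₁ := by exact_mod_cast hA1
    have h3 : (0 : ℝ) ≤ ⌈Real.log (Real.log (N : ℝ))⌉₊ := Nat.cast_nonneg _
    nlinarith
  -- the second moments
  obtain ⟨Si, hSi⟩ : ∃ Si : ι → ℝ, Si = fun j => Sq i (Qp q N) (mN q N) (tx χ (la (f j))) :=
    ⟨_, rfl⟩
  obtain ⟨S0, hS0⟩ : ∃ S0 : ι → ℝ, S0 = fun j => Sq 0 (Qp q N) (mN q N) (tx χ (la (f j))) :=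
    ⟨_, rfl⟩
  obtain ⟨M, hM⟩ : ∃ M : ι → ℝ, M = fun j => mb1 (Iq q N) (Kd A₁ N) (tx χ (la (f j))) :=
    ⟨_, rfl⟩
  have m1 : ∑ j, om (f j) * (Si j * M j) ^ 2 ≤ E * (Ci * Lm ^ (2 * i) * l ^ 6) := by
    obtain ⟨X, hXa, hXb, hXc⟩ := hP1 N g3 q hq0 hq
    have h1 := transfer_tw hχ f hi hn hXa hXb hP hXc
    have h2 := (hmi N g1 q hq0 hqN P hP).2
    rw [← hLm, ← hl] at h2
    rw [hSi, hM, hE]
    exact h1.trans (mul_le_mul_of_nonneg_left h2 (Real.exp_pos _).le)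
  have m2 : ∑ j, om (f j) * (S0 j * M j) ^ 2 ≤ E * (C0 * l ^ 6) := by
    obtain ⟨X, hXa, hXb, hXc⟩ := hP0 N g4 q hq0 hq
    have h1 := transfer_tw hχ f hi hn hXa hXb hP hXc
    have h2 := (hm0 N g2 q hq0 hqN P hP).2
    rw [← hLm, ← hl, mul_zero, pow_zero, mul_one] at h2
    rw [hS0, hM, hE]
    exact h1.trans (mul_le_mul_of_nonneg_left h2 (Real.exp_pos _).le)
  have m3 : ∑ j, om (f j) * PX χ (f j) ^ 2 ≤ E * l := by
    rw [hE, hl]
    exact hX1 N g6 q χ hχ f hi hn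
  -- every exceptional form contributes
  have hcase : ∀ j ∈ s, 1 ≤ 9 / τ ^ 2 * (Si j * M j) ^ 2 +
      9 / τ ^ 2 * (Lm ^ i) ^ 2 * (S0 j * M j) ^ 2 +
      9 * L ^ 2 / τ ^ 2 * r j ^ 2 + 1 / (e' * l) ^ 2 * PX χ (f j) ^ 2 := by
    intro j hj
    have hbad := hs j hj
    unfold Bad at hbad
    rw [← hL, ← show l = Real.log L by rw [hl, hL]] at hbad
    have hu := hr j
    rw [← hLm] at hu
    refine uh_case hLe hl1 he0 he1 hτ ?_ (hr0 j) (u := ui χ i (f j)) ?_ hLm2.1 rfl hbad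
    · intro hPj
      have h1 := mol_size (L := L) (H := HB (Iq q N)) (P := PX χ (f j)) hLe hl1 hKl
        (hPj.trans (mul_le_mul_of_nonneg_right he2 hl0.le)) (by rw [hl]; exact hb1)
        (by rw [hl]; exact hb2)
      have h2 : M j = Real.exp (HB (Iq q N) / 2) * ex K (-PX χ (f j)) := by
        rw [hM, hK]
        show mb1 (Iq q N) (Kd A₁ N) (tx χ (la (f j))) = _
        unfold mb1
        rw [pb_px hχ]
      rw [h2]
      exact h1
    · rw [hSi, hS0]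
      exact hu
  have hsum : ∑ j ∈ s, om (f j) ≤ ∑ j, om (f j) * (9 / τ ^ 2 * (Si j * M j) ^ 2 +
      9 / τ ^ 2 * (Lm ^ i) ^ 2 * (S0 j * M j) ^ 2 +
      9 * L ^ 2 / τ ^ 2 * r j ^ 2 + 1 / (e' * l) ^ 2 * PX χ (f j) ^ 2) := by
    refine (Finset.sum_le_sum fun j hj => ?_).trans
      (Finset.sum_le_univ_sum_of_nonneg fun j => ?_)
    · exact le_mul_of_one_le_right (hom j) (hcase j hj)
    · exact mul_nonneg (hom j) (by positivity)
  have hsplit : ∑ j, om (f j) * (9 / τ ^ 2 * (Si j * M j) ^ 2 +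
      9 / τ ^ 2 * (Lm ^ i) ^ 2 * (S0 j * M j) ^ 2 +
      9 * L ^ 2 / τ ^ 2 * r j ^ 2 + 1 / (e' * l) ^ 2 * PX χ (f j) ^ 2) =
      9 / τ ^ 2 * ∑ j, om (f j) * (Si j * M j) ^ 2 +
      9 / τ ^ 2 * (Lm ^ i) ^ 2 * ∑ j, om (f j) * (S0 j * M j) ^ 2 +
      9 * L ^ 2 / τ ^ 2 * ∑ j, om (f j) * r j ^ 2 +
      1 / (e' * l) ^ 2 * ∑ j, om (f j) * PX χ (f j) ^ 2 := by
    rw [Finset.mul_sum, Finset.mul_sum, Finset.mul_sum, Finset.mul_sum, ← Finset.sum_add_distrib,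
      ← Finset.sum_add_distrib, ← Finset.sum_add_distrib]
    exact Finset.sum_congr rfl fun j _ => by ring
  rw [hsplit] at hsum
  have hfin := hT1 N g10
  rw [← hL, ← show l = Real.log L by rw [hl, hL]] at hfin
  refine hsum.trans (le_trans ?_ hfin)
  -- the arithmetic
  have hex : Real.exp (-(2 * ε * Real.sqrt l)) = (Real.exp (ε * Real.sqrt l) ^ 2)⁻¹ := by
    rw [← Real.exp_nat_mul, ← Real.exp_neg]
    congr 1
    push_cast
    ring
  obtain ⟨Y, hY⟩ : ∃ Y, Y = Real.exp (ε * Real.sqrt l) := ⟨_, rfl⟩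
  have hY1 : 1 ≤ Y := by
    rw [hY]
    exact Real.one_le_exp (by positivity)
  have hY0 : 0 < Y := by linarith
  rw [← hY] at hex hτ
  have hLi : Lm ^ (2 * i) ≤ 2 ^ (2 * i) * L ^ (2 * i) := by
    rw [← mul_pow]
    exact pow_le_pow_left₀ hLm2.1 hLm2.2 _
  have hτ2 : 9 / τ ^ 2 = 36 * l ^ 4 / (L ^ (2 * i) * Y ^ 2) := by
    rw [hτ]
    have hL2 : L ^ (2 * i) = (L ^ i) ^ 2 := by rw [mul_comm, pow_mul]
    rw [hL2]
    field_simp
    norm_num
  have k1 : 9 / τ ^ 2 * ∑ j, om (f j) * (Si j * M j) ^ 2 ≤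
      36 * E * Ci * 2 ^ (2 * i) * (l ^ 10 * (Y ^ 2)⁻¹) := by
    refine (mul_le_mul_of_nonneg_left m1 (by positivity)).trans ?_
    rw [hτ2]
    have h1 : E * (Ci * Lm ^ (2 * i) * l ^ 6) ≤ E * (Ci * (2 ^ (2 * i) * L ^ (2 * i)) * l ^ 6) := by
      gcongr
    refine (mul_le_mul_of_nonneg_left h1 (by positivity)).trans (le_of_eq ?_)
    field_simp
  have k2 : 9 / τ ^ 2 * (Lm ^ i) ^ 2 * ∑ j, om (f j) * (S0 j * M j) ^ 2 ≤
      36 * E * C0 * 2 ^ (2 * i) * (l ^ 10 * (Y ^ 2)⁻¹) := by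
    refine (mul_le_mul_of_nonneg_left m2 (by positivity)).trans ?_
    rw [hτ2, ← pow_mul, mul_comm i 2]
    have h1 : 36 * l ^ 4 / (L ^ (2 * i) * Y ^ 2) * Lm ^ (2 * i) ≤
        36 * l ^ 4 / (L ^ (2 * i) * Y ^ 2) * (2 ^ (2 * i) * L ^ (2 * i)) :=
      mul_le_mul_of_nonneg_left hLi (by positivity)
    refine (mul_le_mul_of_nonneg_right h1 (by positivity)).trans (le_of_eq ?_)
    field_simp
  have k3 : 9 * L ^ 2 / τ ^ 2 * ∑ j, om (f j) * r j ^ 2 ≤ 36 * (L ^ 6 / N) := by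
    refine (mul_le_mul_of_nonneg_left hr2 (by positivity)).trans ?_
    have h1 : 9 * L ^ 2 / τ ^ 2 = L ^ 2 * (36 * l ^ 4 / (L ^ (2 * i) * Y ^ 2)) := by
      rw [← hτ2]; ring
    rw [h1]
    have h2 : 36 * l ^ 4 / (L ^ (2 * i) * Y ^ 2) ≤ 36 * L ^ 4 := by
      rw [div_le_iff₀ (by positivity)]
      have h3 : 1 ≤ L ^ (2 * i) * Y ^ 2 :=
        one_le_mul_of_one_le_of_one_le (one_le_pow₀ hLone) (one_le_pow₀ hY1)
      have h4 : l ^ 4 ≤ L ^ 4 := pow_le_pow_left₀ hl0.le hlL 4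
      calc 36 * l ^ 4 ≤ 36 * L ^ 4 * 1 := by linarith
        _ ≤ 36 * L ^ 4 * (L ^ (2 * i) * Y ^ 2) :=
          mul_le_mul_of_nonneg_left h3 (by positivity)
    calc L ^ 2 * (36 * l ^ 4 / (L ^ (2 * i) * Y ^ 2)) * (1 / (N : ℝ))
        ≤ L ^ 2 * (36 * L ^ 4) * (1 / (N : ℝ)) := by gcongr
      _ = 36 * (L ^ 6 / N) := by ring
  have k4 : 1 / (e' * l) ^ 2 * ∑ j, om (f j) * PX χ (f j) ^ 2 ≤ E / e' ^ 2 / l := by
    refine (mul_le_mul_of_nonneg_left m3 (by positivity)).trans (le_of_eq ?_)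
    field_simp
  rw [hex]
  calc 9 / τ ^ 2 * ∑ j, om (f j) * (Si j * M j) ^ 2 +
      9 / τ ^ 2 * (Lm ^ i) ^ 2 * ∑ j, om (f j) * (S0 j * M j) ^ 2 +
      9 * L ^ 2 / τ ^ 2 * ∑ j, om (f j) * r j ^ 2 +
      1 / (e' * l) ^ 2 * ∑ j, om (f j) * PX χ (f j) ^ 2
      ≤ 36 * E * Ci * 2 ^ (2 * i) * (l ^ 10 * (Y ^ 2)⁻¹) +
        36 * E * C0 * 2 ^ (2 * i) * (l ^ 10 * (Y ^ 2)⁻¹) + 36 * (L ^ 6 / N) + E / e' ^ 2 / l := by
        linarith
    _ = 36 * E * (Ci + C0) * 2 ^ (2 * i) * (l ^ 10 * (Y ^ 2)⁻¹) + 36 * (L ^ 6 / N) +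
        E / e' ^ 2 / l := by ring

end Pool.Agent.TU
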